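import Pool.Agent.U26.SB.Core
import Pool.Agent.N661.BR.Fin5
import Pool.Agent.N661.BR.Fin3
import Pool.Agent.N878.BRBOCH

/-!
# Linear functionals of stationary ergodic waves
-/

set_option autoImplicit false
open MeasureTheory Filter Topology ProbabilityTheory
open scoped ContDiff ENNReal

namespace Pool.Agent.U26.SB

open Pool.Agent.W745.RW (lap dx dy TF)
open Pool.Agent.N661.BR
open Pool.Agent.N878.BR (tf tf_cont tf_cs tf_int tf_wave meas_unc cf cf_sq int_sq mlp)

/-- the mean of a stationary wave is zero -/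
theorem mean_zero {μ : Measure MW} [IsProbabilityMeasure μ] (hst : IsStationary μ)
    (hi : Integrable (fun f : MW => f 0 ^ 2) μ) (w : ℂ) : ∫ f : MW, f w ∂μ = 0 := by
  rw [Pool.Agent.N273.BRERG.mean_eq hst w]
  set e := ∫ f : MW, f 0 ∂μ with he
  obtain ⟨φ, hφ, hc, hpos⟩ : ∃ φ : ℂ → ℝ, ContDiff ℝ ∞ φ ∧ HasCompactSupport φ ∧ 0 < ∫ z, φ z := by
    let b : ContDiffBump (0 : ℂ) := ⟨1 / 2, 1, by norm_num, by norm_num⟩
    exact ⟨fun z => b z, b.contDiff, b.hasCompactSupport, b.integral_pos⟩
  have hm : Measurable (fun p : ℂ × MW => tf φ p.1 * p.2 p.1) :=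
    ((tf_cont hφ).measurable.comp measurable_fst).mul meas_unc
  have hint : Integrable (fun p : ℂ × MW => tf φ p.1 * p.2 p.1) (volume.prod μ) := by
    rw [integrable_prod_iff hm.aestronglyMeasurable]
    refine ⟨Eventually.of_forall fun y =>
      ((mlp hst hi y).integrable one_le_two).const_mul (tf φ y), ?_⟩
    have hb : Integrable (fun y => |tf φ y| * ((1 + cf μ 0) / 2)) := by
      exact ((tf_cont hφ).integrable_of_hasCompactSupport (tf_cs hc)).abs.mul_const _
    refine hb.mono' ?_ (Eventually.of_forall fun y => ?_)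
    · exact (hm.norm.aestronglyMeasurable (μ := volume.prod μ)).integral_prod_right'
    · have h1 : ∫ f : MW, ‖tf φ y * f y‖ ∂μ = |tf φ y| * ∫ f : MW, |f y| ∂μ := by
        rw [← integral_const_mul]
        exact integral_congr_ae (Eventually.of_forall fun f => by
          simp only [Real.norm_eq_abs, abs_mul])
      rw [Real.norm_eq_abs, h1, abs_of_nonneg (mul_nonneg (abs_nonneg _)
        (integral_nonneg fun f => abs_nonneg _))]
      refine mul_le_mul_of_nonneg_left ?_ (abs_nonneg _)
      have h2 : ∀ f : MW, |f y| ≤ (1 / 2) * (1 + f y ^ 2) := by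
        intro f
        rw [abs_le]
        constructor <;> nlinarith [sq_nonneg (f y + 1), sq_nonneg (f y - 1)]
      have h3 : ∫ f : MW, (1 / 2) * (1 + f y ^ 2) ∂μ = (1 + cf μ 0) / 2 := by
        rw [integral_const_mul, integral_add (integrable_const 1) (int_sq hst hi y), cf_sq hst,
          integral_const, probReal_univ, one_smul]
        ring
      rw [← h3]
      exact integral_mono ((mlp hst hi y).integrable one_le_two).abs
        (((integrable_const 1).add (int_sq hst hi y)).const_mul _) h2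
  have h1 : ∫ y, ∫ f : MW, tf φ y * f y ∂μ = 0 := by
    rw [integral_integral_swap (f := fun (y : ℂ) (f : MW) => tf φ y * f y) hint]
    simp_rw [tf_wave hφ hc]
    exact integral_zero _ _
  have h2 : ∀ y, ∫ f : MW, tf φ y * f y ∂μ = tf φ y * e := fun y => by
    rw [integral_const_mul, Pool.Agent.N273.BRERG.mean_eq hst y]
  simp_rw [h2] at h1
  rw [integral_mul_const] at h1
  have h3 : ∫ y, tf φ y = ∫ y, φ y := by
    have h4 := tf_int hφ hc (u := fun _ => 1) contDiff_const
    have h5 : ∀ y : ℂ, lap (fun _ : ℂ => (1 : ℝ)) y = 0 := by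
      intro y
      have hx : dx (fun _ : ℂ => (1 : ℝ)) = fun _ => 0 := by
        funext z; simp [dx]
      have hy : dy (fun _ : ℂ => (1 : ℝ)) = fun _ => 0 := by
        funext z; simp [dy]
      unfold lap
      rw [hx, hy]
      simp [dx, dy]
    simpa [h5] using h4
  rw [h3] at h1
  rcases mul_eq_zero.1 h1 with h | h
  · exact absurd h hpos.ne'
  · exact h

section lwave

variable {k : ℕ}

theorem dx_sum (g : Fin k → ℂ → ℝ) (t : Fin k → ℝ) (hg : ∀ j, ContDiff ℝ ∞ (g j)) (v z : ℂ) :
    fderiv ℝ (fun y => ∑ j, t j * g j y) z v = ∑ j, t j * fderiv ℝ (g j) z v := by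
  have hd : ∀ j, DifferentiableAt ℝ (g j) z := fun j =>
    (hg j).differentiable (by simp) z
  have h1 : HasFDerivAt (fun y => ∑ j, t j * g j y) (∑ j, t j • fderiv ℝ (g j) z) z :=
    HasFDerivAt.fun_sum fun j _ => (hd j).hasFDerivAt.const_mul (t j)
  rw [h1.fderiv]
  simp

theorem fd_smooth {g : ℂ → ℝ} (hg : ContDiff ℝ ∞ g) (v : ℂ) :
    ContDiff ℝ ∞ (fun z => fderiv ℝ g z v) :=
  (hg.fderiv_right (m := ∞) (by simp)).clm_apply contDiff_const

/-- the wave `y ↦ ∑ t_j f (y + w_j)` -/
def lwave (w : Fin k → ℂ) (t : Fin k → ℝ) (f : MW) : MW :=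
  ⟨fun y => ∑ j, t j * f (y + w j), by
    refine ContDiff.sum fun j _ => contDiff_const.mul ?_
    exact f.2.1.comp (contDiff_id.add contDiff_const), fun z => by
    have hg : ∀ j, ContDiff ℝ ∞ (fun y => f (y + w j)) := fun j =>
      f.2.1.comp (contDiff_id.add contDiff_const)
    have hx : dx (fun y => ∑ j, t j * f (y + w j)) =
        fun z => ∑ j, t j * dx (fun y => f (y + w j)) z := by
      funext z
      exact dx_sum (fun j y => f (y + w j)) t hg 1 z
    have hy : dy (fun y => ∑ j, t j * f (y + w j)) =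
        fun z => ∑ j, t j * dy (fun y => f (y + w j)) z := by
      funext z
      exact dx_sum (fun j y => f (y + w j)) t hg Complex.I z
    have h1 : lap (fun y => ∑ j, t j * f (y + w j)) z =
        ∑ j, t j * lap (fun y => f (y + w j)) z := by
      unfold lap
      rw [hx, hy]
      have e1 := dx_sum (fun j => dx (fun y => f (y + w j))) t (fun j => fd_smooth (hg j) 1) 1 z
      have e2 := dx_sum (fun j => dy (fun y => f (y + w j))) t
        (fun j => fd_smooth (hg j) Complex.I) Complex.I z
      have e1' : dx (fun z => ∑ j, t j * dx (fun y => f (y + w j)) z) z =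
          ∑ j, t j * dx (dx (fun y => f (y + w j))) z := e1
      have e2' : dy (fun z => ∑ j, t j * dy (fun y => f (y + w j)) z) z =
          ∑ j, t j * dy (dy (fun y => f (y + w j))) z := e2
      rw [e1', e2', ← Finset.sum_add_distrib]
      exact Finset.sum_congr rfl fun j _ => by ring
    rw [h1, ← Finset.sum_add_distrib]
    refine Finset.sum_eq_zero fun j _ => ?_
    rw [lap_add, ← mul_add, f.2.2 (z + w j), mul_zero]⟩

theorem lwave_apply (w : Fin k → ℂ) (t : Fin k → ℝ) (f : MW) (y : ℂ) :
    lwave w t f y = ∑ j, t j * f (y + w j) := rfl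

theorem lwave_zero (w : Fin k → ℂ) (t : Fin k → ℝ) (f : MW) :
    lwave w t f 0 = lin w t f := by
  rw [lwave_apply]
  unfold lin
  exact Finset.sum_congr rfl fun j _ => by rw [zero_add]

theorem lwave_meas (w : Fin k → ℂ) (t : Fin k → ℝ) : Measurable (lwave w t) := by
  refine Measurable.subtype_mk (measurable_pi_iff.2 fun y => ?_)
  exact Finset.measurable_sum _ fun j _ => (meas_eval (y + w j)).const_mul _

theorem lwave_shift (w : Fin k → ℂ) (t : Fin k → ℝ) (x : ℂ) (f : MW) :
    lwave w t (shift x f) = shift x (lwave w t f) := by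
  apply Subtype.ext
  funext y
  show ∑ j, t j * f (y + w j + x) = ∑ j, t j * f (y + x + w j)
  exact Finset.sum_congr rfl fun j _ => by rw [add_right_comm]

variable {μ : Measure MW}

theorem lwave_stat (w : Fin k → ℂ) (t : Fin k → ℝ) (hs : IsStationary μ) :
    IsStationary (μ.map (lwave w t)) := by
  intro x
  rw [Measure.map_map (meas_shift x) (lwave_meas w t)]
  have e : shift x ∘ lwave w t = lwave w t ∘ shift x := by
    funext f
    exact (lwave_shift w t x f).symm
  rw [e, ← Measure.map_map (lwave_meas w t) (meas_shift x), hs x]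

theorem lwave_erg (w : Fin k → ℂ) (t : Fin k → ℝ) (he : IsErgodic μ) :
    IsErgodic (μ.map (lwave w t)) := by
  intro A hA h
  rw [Measure.map_apply (lwave_meas w t) hA]
  refine he _ (lwave_meas w t hA) fun x => ?_
  have h1 := ((lwave_meas w t).quasiMeasurePreserving μ).preimage_ae_eq (h x)
  have e : shift x ⁻¹' (lwave w t ⁻¹' A) = lwave w t ⁻¹' (shift x ⁻¹' A) := by
    ext f
    show lwave w t (shift x f) ∈ A ↔ shift x (lwave w t f) ∈ A
    rw [lwave_shift]
  rw [e]
  exact h1

theorem lin_meas (w : Fin k → ℂ) (t : Fin k → ℝ) : Measurable (lin w t) := by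
  unfold lin
  exact Finset.measurable_sum _ fun j _ => (meas_eval (w j)).const_mul _

theorem ml4 (hs : IsStationary μ) (h4 : Integrable (fun f : MW => f 0 ^ 4) μ) (w : ℂ) :
    MemLp (fun f : MW => f w) 4 μ := by
  have h1 : Integrable (fun f : MW => f w ^ 4) μ := by
    have h1 : MeasurePreserving (shift w) μ μ := ⟨meas_shift w, hs w⟩
    have h2 := h1.integrable_comp_of_integrable h4
    refine h2.congr (Eventually.of_forall fun f => ?_)
    show (f (0 + w)) ^ 4 = f w ^ 4
    rw [zero_add]
  rw [← integrable_norm_rpow_iff (meas_eval w).aestronglyMeasurable (by norm_num) (by norm_num)]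
  refine h1.congr (Eventually.of_forall fun f => ?_)
  have e4 : (4 : ENNReal).toReal = ((4 : ℕ) : ℝ) := by norm_num
  show f w ^ 4 = ‖f w‖ ^ ((4 : ENNReal).toReal)
  rw [e4, Real.rpow_natCast, Real.norm_eq_abs, Even.pow_abs (by decide)]

theorem lin_ml4 (hs : IsStationary μ) (h4 : Integrable (fun f : MW => f 0 ^ 4) μ)
    (w : Fin k → ℂ) (t : Fin k → ℝ) : MemLp (lin w t) 4 μ := by
  have h1 := memLp_finsetSum (μ := μ) (p := 4) Finset.univ
    (f := fun j (f : MW) => t j * f (w j)) fun j _ => (ml4 hs h4 (w j)).const_mul (t j)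
  exact h1

theorem lin_i4 [IsFiniteMeasure μ] (hs : IsStationary μ)
    (h4 : Integrable (fun f : MW => f 0 ^ 4) μ)
    (w : Fin k → ℂ) (t : Fin k → ℝ) : Integrable (fun f => lin w t f ^ 4) μ := by
  have h1 := (lin_ml4 hs h4 w t).integrable_norm_pow (by norm_num : 4 ≠ 0)
  refine h1.congr (Eventually.of_forall fun f => ?_)
  show ‖lin w t f‖ ^ 4 = lin w t f ^ 4
  rw [Real.norm_eq_abs, Even.pow_abs (by decide)]

/-- the fourth moments of the linear functionals of an ergodic wave -/
theorem lin_four [IsProbabilityMeasure μ] (hs : IsStationary μ) (he : IsErgodic μ)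
    (h4 : Integrable (fun f : MW => f 0 ^ 4) μ) (w : Fin k → ℂ) (t : Fin k → ℝ) :
    ∫ f, lin w t f ^ 4 ∂μ ≤ 3 * (∫ f, lin w t f ^ 2 ∂μ) ^ 2 := by
  have hm := lwave_meas w t
  have hp : IsProbabilityMeasure (μ.map (lwave w t)) :=
    Measure.isProbabilityMeasure_map hm.aemeasurable
  have hs' := lwave_stat w t hs
  have he' := lwave_erg w t he
  have i4 : Integrable (fun f : MW => f 0 ^ 4) (μ.map (lwave w t)) := by
    rw [integrable_map_measure ((meas_eval 0).pow_const 4).aestronglyMeasurable hm.aemeasurable]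
    refine (lin_i4 hs h4 w t).congr (Eventually.of_forall fun f => ?_)
    show lin w t f ^ 4 = lwave w t f 0 ^ 4
    rw [lwave_zero]
  have i2 : Integrable (fun f : MW => f 0 ^ 2) (μ.map (lwave w t)) :=
    pow_int (meas_eval 0) i4 (by norm_num)
  obtain ⟨m, ν, hν, -, hcov⟩ := Pool.Agent.N878.BR.BOCH _ hp hs' i2
  have e4 := Pool.Agent.N141.BRERG4.ERG4 _ hp hs' he' i4 m ν hν hcov
  have e2 := hcov 0 0
  rw [sub_zero, cov_zero, mul_one] at e2
  rw [integral_map hm.aemeasurable ((meas_eval 0).pow_const 4).aestronglyMeasurable] at e4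
  have hm2 : Measurable (fun f : MW => f 0 * f 0) := (meas_eval 0).mul (meas_eval 0)
  rw [integral_map hm.aemeasurable hm2.aestronglyMeasurable] at e2
  have a4 : ∫ f, lin w t f ^ 4 ∂μ = m ^ 2 * (3 - 3 / 2 * parallel ν) := by
    rw [← e4]
    exact integral_congr_ae (Eventually.of_forall fun f => by simp only [lwave_zero])
  have a2 : ∫ f, lin w t f ^ 2 ∂μ = m := by
    rw [← e2]
    exact integral_congr_ae (Eventually.of_forall fun f => by simp only [lwave_zero, sq])
  have hpar : 0 ≤ parallel ν := measureReal_nonneg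
  rw [a4, a2]
  nlinarith [mul_nonneg (sq_nonneg m) hpar]

theorem lin_mean [IsProbabilityMeasure μ] (hs : IsStationary μ)
    (h2 : Integrable (fun f : MW => f 0 ^ 2) μ) (w : Fin k → ℂ) (t : Fin k → ℝ) :
    ∫ f, lin w t f ∂μ = 0 := by
  unfold lin
  rw [integral_finsetSum _ fun j _ => ((mlp hs h2 (w j)).integrable one_le_two).const_mul _]
  refine Finset.sum_eq_zero fun j _ => ?_
  rw [integral_const_mul, mean_zero hs h2, mul_zero]

theorem lin_neg (w : Fin k → ℂ) (t : Fin k → ℝ) (f : MW) :
    lin w (fun j => -t j) f = -lin w t f := by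
  unfold lin
  rw [← Finset.sum_neg_distrib]
  exact Finset.sum_congr rfl fun j _ => by ring

/-- **Both signs of a linear functional of an ergodic wave** -/
theorem erg_sign [IsProbabilityMeasure μ] (hs : IsStationary μ) (he : IsErgodic μ)
    (h4 : Integrable (fun f : MW => f 0 ^ 4) μ) (w : Fin k → ℂ) (t : Fin k → ℝ)
    (h0 : ¬ ∀ᵐ f ∂μ, lin w t f = 0) : cst ≤ μ.real {f | 0 < lin w t f} := by
  have hX := lin_meas w t
  have i4 := lin_i4 hs h4 w t
  have i2 : Integrable (fun f : MW => f 0 ^ 2) μ := pow_int (meas_eval 0) h4 (by norm_num)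
  have j2 : Integrable (fun f => lin w t f ^ 2) μ := pow_int hX i4 (by norm_num)
  refine pos_core hX i4 (lin_mean hs i2 w t) ?_ (lin_four hs he h4 w t)
  refine lt_of_le_of_ne (integral_nonneg fun f => sq_nonneg _) fun h => h0 ?_
  have h1 := (integral_eq_zero_iff_of_nonneg (fun f => sq_nonneg _) j2).1 h.symm
  filter_upwards [h1] with f hf
  exact pow_eq_zero_iff (two_ne_zero) |>.1 hf

end lwave

end Pool.Agent.U26.SB
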