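import Mathlib.MeasureTheory.Integral.Bochner.Basic
import Mathlib.MeasureTheory.Function.L1Space.Integrable
import Mathlib.MeasureTheory.Integral.Bochner.Set
import Mathlib.Analysis.SpecialFunctions.Pow.Real
import Mathlib.Tactic

/-!
# Probability of a positive value, from moments of order at most four
-/

set_option autoImplicit false
open MeasureTheory

namespace Pool.Agent.U26.SB

/-- `(2 √3 - 3) / 3 = 0.1547...` -/
noncomputable def cst : ℝ := (2 * √3 - 3) / 3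

theorem s3 : √(3 : ℝ) ^ 2 = 3 := Real.sq_sqrt (by norm_num)

theorem s3pos : 0 < √(3 : ℝ) := Real.sqrt_pos.2 (by norm_num)

theorem cst_eq : cst = 4 / (9 + 6 * √3) * (3 / 4) := by
  unfold cst
  have h := s3
  have h0 := s3pos
  rw [div_mul_div_comm, div_eq_div_iff (by norm_num) (by positivity)]
  nlinarith

theorem cst_gt : 15 / 100 < cst := by
  unfold cst
  have h := s3
  have h0 := s3pos
  have : (1.7319 : ℝ) < √3 := by
    rw [Real.lt_sqrt (by norm_num)]
    norm_num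
  linarith

theorem cst_pos : 0 < cst := by linarith [cst_gt]

section

variable {Ω : Type*} [MeasurableSpace Ω] {P : Measure Ω} [IsProbabilityMeasure P] {X : Ω → ℝ}

theorem ind_le (hX : Measurable X) {q : Ω → ℝ} (hq : Integrable q P)
    (h : ∀ ω, q ω ≤ if 0 < X ω then 1 else 0) : ∫ ω, q ω ∂P ≤ P.real {ω | 0 < X ω} := by
  have hm : MeasurableSet {ω | 0 < X ω} := measurableSet_lt measurable_const hX
  have h1 : P.real {ω | 0 < X ω} = ∫ ω, ({ω | 0 < X ω}.indicator (fun _ => (1 : ℝ))) ω ∂P := by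
    rw [integral_indicator_const _ hm, smul_eq_mul, mul_one]
  rw [h1]
  refine integral_mono hq ((integrable_const (1 : ℝ)).indicator hm) fun ω => ?_
  have := h ω
  by_cases hω : 0 < X ω
  · simp only [Set.indicator, Set.mem_ofPred_eq, hω, if_true] at this ⊢
    exact this
  · simp only [Set.indicator, Set.mem_ofPred_eq, hω, if_false] at this ⊢
    exact this

theorem pow_int (hX : Measurable X) (h4 : Integrable (fun ω => X ω ^ 4) P) {k : ℕ} (hk : k ≤ 4) :
    Integrable (fun ω => X ω ^ k) P := by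
  refine Integrable.mono' (h4.add (integrable_const 1)) (hX.pow_const k).aestronglyMeasurable
    (Filter.Eventually.of_forall fun ω => ?_)
  rw [Real.norm_eq_abs, abs_pow, Pi.add_apply]
  have e : X ω ^ 4 = |X ω| ^ 4 := (Even.pow_abs (by decide) _).symm
  rw [e]
  have h0 := abs_nonneg (X ω)
  rcases le_total |X ω| 1 with h | h
  · have := pow_le_one₀ (n := k) h0 h
    have := pow_nonneg h0 4
    linarith
  · have := pow_le_pow_right₀ h hk
    linarith

theorem pos_core (hX : Measurable X) (h4 : Integrable (fun ω => X ω ^ 4) P)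
    (h1 : ∫ ω, X ω ∂P = 0) (h2 : 0 < ∫ ω, X ω ^ 2 ∂P)
    (h : ∫ ω, X ω ^ 4 ∂P ≤ 3 * (∫ ω, X ω ^ 2 ∂P) ^ 2) : cst ≤ P.real {ω | 0 < X ω} := by
  set m := ∫ ω, X ω ^ 2 ∂P with hm
  set M := ∫ ω, X ω ^ 4 ∂P with hM
  set y := √(2 * m) with hy
  have y0 : 0 < y := Real.sqrt_pos.2 (by positivity)
  have y2 : y ^ 2 = 2 * m := Real.sq_sqrt (by positivity)
  have hs := s3
  have hs0 := s3pos
  set K : ℝ := 4 / (9 + 6 * √3) with hK
  have K0 : 0 < K := by positivity
  have KG : K * ((9 + 6 * √3) / 4) = 1 := by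
    rw [hK]; field_simp
  have i1 : Integrable (fun ω => X ω) P := by simpa using pow_int (k := 1) hX h4 (by norm_num)
  have i2 := pow_int (k := 2) hX h4 (by norm_num)
  have hq : Integrable (fun ω => K * ((2 / y) * X ω + (3 / y ^ 2) * X ω ^ 2 -
      (1 / y ^ 4) * X ω ^ 4)) P :=
    (((i1.const_mul _).add (i2.const_mul _)).sub (h4.const_mul _)).const_mul _
  have e1 := ind_le hX hq fun ω => by
    have e2 : (2 / y) * X ω + (3 / y ^ 2) * X ω ^ 2 - (1 / y ^ 4) * X ω ^ 4 =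
        2 * (X ω / y) + 3 * (X ω / y) ^ 2 - (X ω / y) ^ 4 := by
      field_simp
    rw [e2]
    by_cases hx : 0 < X ω
    · rw [if_pos hx]
      have t0 : 0 < X ω / y := div_pos hx y0
      set t := X ω / y
      have e3 : (9 + 6 * √3) / 4 - (2 * t + 3 * t ^ 2 - t ^ 4) =
          (t - (1 + √3) / 2) ^ 2 * (t ^ 2 + (1 + √3) * t + 3 * √3 / 2) := by
        linear_combination ((3 / 4) * t ^ 2 + (3 / 4 - √3 / 4) * t - 3 / 4 - 3 / 8 * √3) * hs
      have e4 : 0 ≤ (t - (1 + √3) / 2) ^ 2 * (t ^ 2 + (1 + √3) * t + 3 * √3 / 2) := by positivity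
      have e5 : 2 * t + 3 * t ^ 2 - t ^ 4 ≤ (9 + 6 * √3) / 4 := by linarith
      calc K * (2 * t + 3 * t ^ 2 - t ^ 4) ≤ K * ((9 + 6 * √3) / 4) := by gcongr
        _ = 1 := KG
    · rw [if_neg hx]
      have t0 : X ω / y ≤ 0 := div_nonpos_of_nonpos_of_nonneg (not_lt.1 hx) y0.le
      set t := X ω / y
      have e3 : 2 * t + 3 * t ^ 2 - t ^ 4 = t * ((t + 1) ^ 2 * (2 - t)) := by ring
      rw [e3]
      have : t * ((t + 1) ^ 2 * (2 - t)) ≤ 0 :=
        mul_nonpos_of_nonpos_of_nonneg t0 (mul_nonneg (sq_nonneg _) (by linarith))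
      nlinarith
  have e6 : ∫ ω, K * ((2 / y) * X ω + (3 / y ^ 2) * X ω ^ 2 - (1 / y ^ 4) * X ω ^ 4) ∂P =
      K * ((3 / y ^ 2) * m - (1 / y ^ 4) * M) := by
    have j1 : Integrable (fun ω => (2 / y) * X ω) P := i1.const_mul _
    have j2 : Integrable (fun ω => (3 / y ^ 2) * X ω ^ 2) P := i2.const_mul _
    have j12 : Integrable (fun ω => (2 / y) * X ω + (3 / y ^ 2) * X ω ^ 2) P := j1.add j2
    have j4 : Integrable (fun ω => (1 / y ^ 4) * X ω ^ 4) P := h4.const_mul _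
    rw [integral_const_mul, integral_sub j12 j4, integral_add j1 j2, integral_const_mul,
      integral_const_mul, integral_const_mul, h1]
    ring
  rw [e6] at e1
  refine le_trans ?_ e1
  rw [cst_eq]
  have e7 : 3 / y ^ 2 * m = 3 / 2 := by rw [y2]; field_simp
  have e8 : 1 / y ^ 4 * M ≤ 3 / 4 := by
    have : y ^ 4 = 4 * m ^ 2 := by
      have : y ^ 4 = (y ^ 2) ^ 2 := by ring
      rw [this, y2]; ring
    rw [this, one_div, inv_mul_le_iff₀ (by positivity)]
    linarith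
  have : 3 / 4 ≤ 3 / y ^ 2 * m - 1 / y ^ 4 * M := by rw [e7]; linarith
  gcongr

theorem sixth_core (hX : Measurable X) (h4 : Integrable (fun ω => X ω ^ 4) P)
    (h1 : ∫ ω, X ω ∂P = 0) (h2 : 0 < ∫ ω, X ω ^ 2 ∂P) (h3 : ∫ ω, X ω ^ 3 ∂P = 0)
    (h : ∫ ω, X ω ^ 4 ∂P ≤ 3 * (∫ ω, X ω ^ 2 ∂P) ^ 2) : 1 / 6 ≤ P.real {ω | 0 < X ω} := by
  set m := ∫ ω, X ω ^ 2 ∂P with hm
  set M := ∫ ω, X ω ^ 4 ∂P with hM
  set y := √m with hy
  have y0 : 0 < y := Real.sqrt_pos.2 h2
  have y2 : y ^ 2 = m := Real.sq_sqrt h2.le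
  have hs := s3
  have hs0 := s3pos
  have i1 : Integrable (fun ω => X ω) P := by simpa using pow_int (k := 1) hX h4 (by norm_num)
  have i2 := pow_int (k := 2) hX h4 (by norm_num)
  have i3 := pow_int (k := 3) hX h4 (by norm_num)
  have hq : Integrable (fun ω => (9 * √3 / (36 * y)) * X ω + (12 / (36 * y ^ 2)) * X ω ^ 2 +
      (-√3 / (36 * y ^ 3)) * X ω ^ 3 + (-2 / (36 * y ^ 4)) * X ω ^ 4) P :=
    (((i1.const_mul _).add (i2.const_mul _)).add (i3.const_mul _)).add (h4.const_mul _)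
  have e1 := ind_le hX hq fun ω => by
    have e2 : (9 * √3 / (36 * y)) * X ω + (12 / (36 * y ^ 2)) * X ω ^ 2 +
      (-√3 / (36 * y ^ 3)) * X ω ^ 3 + (-2 / (36 * y ^ 4)) * X ω ^ 4 =
        (9 * √3 * (X ω / y) + 12 * (X ω / y) ^ 2 - √3 * (X ω / y) ^ 3 - 2 * (X ω / y) ^ 4) / 36 := by
      field_simp
      ring
    rw [e2]
    by_cases hx : 0 < X ω
    · rw [if_pos hx]
      have t0 : 0 < X ω / y := div_pos hx y0
      set t := X ω / y
      have e3 : 36 - (9 * √3 * t + 12 * t ^ 2 - √3 * t ^ 3 - 2 * t ^ 4) =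
          (t - √3) ^ 2 * (2 * t ^ 2 + 5 * √3 * t + 12) := by
        linear_combination (8 * t ^ 2 - 5 * √3 * t - 12) * hs
      have e4 : 0 ≤ (t - √3) ^ 2 * (2 * t ^ 2 + 5 * √3 * t + 12) := by positivity
      rw [div_le_one (by norm_num)]
      linarith
    · rw [if_neg hx]
      have t0 : X ω / y ≤ 0 := div_nonpos_of_nonpos_of_nonneg (not_lt.1 hx) y0.le
      set t := X ω / y
      have e3 : 9 * √3 * t + 12 * t ^ 2 - √3 * t ^ 3 - 2 * t ^ 4 =
          t * ((t + √3) ^ 2 * (3 * √3 - 2 * t)) := by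
        linear_combination (- 3 * √3 * t - 4 * t ^ 2) * hs
      rw [e3]
      have : t * ((t + √3) ^ 2 * (3 * √3 - 2 * t)) ≤ 0 :=
        mul_nonpos_of_nonpos_of_nonneg t0 (mul_nonneg (sq_nonneg _) (by linarith))
      linarith
  have e6 : ∫ ω, (9 * √3 / (36 * y)) * X ω + (12 / (36 * y ^ 2)) * X ω ^ 2 +
      (-√3 / (36 * y ^ 3)) * X ω ^ 3 + (-2 / (36 * y ^ 4)) * X ω ^ 4 ∂P =
      12 / (36 * y ^ 2) * m + (-2 / (36 * y ^ 4)) * M := by
    have j1 : Integrable (fun ω => (9 * √3 / (36 * y)) * X ω) P := i1.const_mul _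
    have j2 : Integrable (fun ω => (12 / (36 * y ^ 2)) * X ω ^ 2) P := i2.const_mul _
    have j12 : Integrable (fun ω => (9 * √3 / (36 * y)) * X ω + (12 / (36 * y ^ 2)) * X ω ^ 2) P :=
      j1.add j2
    have j3 : Integrable (fun ω => (-√3 / (36 * y ^ 3)) * X ω ^ 3) P := i3.const_mul _
    have j123 : Integrable (fun ω => (9 * √3 / (36 * y)) * X ω + (12 / (36 * y ^ 2)) * X ω ^ 2 +
      (-√3 / (36 * y ^ 3)) * X ω ^ 3) P := j12.add j3
    have j4 : Integrable (fun ω => (-2 / (36 * y ^ 4)) * X ω ^ 4) P := h4.const_mul _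
    rw [integral_add j123 j4, integral_add j12 j3, integral_add j1 j2, integral_const_mul,
      integral_const_mul, integral_const_mul, integral_const_mul, h1, h3]
    ring
  rw [e6] at e1
  refine le_trans ?_ e1
  have e7 : 12 / (36 * y ^ 2) * m = 1 / 3 := by rw [y2]; field_simp; norm_num
  have e8 : -(1 / 6) ≤ -2 / (36 * y ^ 4) * M := by
    have : y ^ 4 = m ^ 2 := by
      have : y ^ 4 = (y ^ 2) ^ 2 := by ring
      rw [this, y2]
    rw [this, div_mul_eq_mul_div, le_div_iff₀ (by positivity)]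
    nlinarith
  rw [e7]
  linarith

theorem l1_core (hX : Measurable X) (h4 : Integrable (fun ω => X ω ^ 4) P)
    (h : ∫ ω, X ω ^ 4 ∂P ≤ 3 * (∫ ω, X ω ^ 2 ∂P) ^ 2) :
    √(∫ ω, X ω ^ 2 ∂P) / √3 ≤ ∫ ω, |X ω| ∂P := by
  have m0 : 0 ≤ ∫ ω, X ω ^ 2 ∂P := integral_nonneg fun ω => sq_nonneg _
  rcases m0.eq_or_lt with h2 | h2
  · rw [← h2, Real.sqrt_zero, zero_div]
    exact integral_nonneg fun ω => abs_nonneg _
  set m := ∫ ω, X ω ^ 2 ∂P with hm
  set M := ∫ ω, X ω ^ 4 ∂P with hM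
  set y := √(3 * m) with hy
  have y0 : 0 < y := Real.sqrt_pos.2 (by positivity)
  have y2 : y ^ 2 = 3 * m := Real.sq_sqrt (by positivity)
  have i1 : Integrable (fun ω => X ω) P := by simpa using pow_int (k := 1) hX h4 (by norm_num)
  have i2 := pow_int (k := 2) hX h4 (by norm_num)
  have e1 : ∫ ω, (3 / (2 * y)) * X ω ^ 2 - (1 / (2 * y ^ 3)) * X ω ^ 4 ∂P ≤ ∫ ω, |X ω| ∂P := by
    refine integral_mono ((i2.const_mul _).sub (h4.const_mul _)) i1.abs fun ω => ?_
    have e2 : (3 / (2 * y)) * X ω ^ 2 - (1 / (2 * y ^ 3)) * X ω ^ 4 =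
        y * ((3 * (|X ω| / y) ^ 2 - (|X ω| / y) ^ 4) / 2) := by
      have a2 : X ω ^ 2 = |X ω| ^ 2 := (sq_abs _).symm
      have a4 : X ω ^ 4 = |X ω| ^ 4 := (Even.pow_abs (by decide) _).symm
      rw [a2, a4]
      field_simp
    show (3 / (2 * y)) * X ω ^ 2 - (1 / (2 * y ^ 3)) * X ω ^ 4 ≤ |X ω|
    rw [e2]
    have t0 : 0 ≤ |X ω| / y := by positivity
    have e3 : |X ω| = y * (|X ω| / y) := by field_simp
    conv_rhs => rw [e3]
    set t := |X ω| / y
    refine mul_le_mul_of_nonneg_left ?_ y0.le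
    have e4 : 0 ≤ t * ((t - 1) ^ 2 * (t + 2)) := by positivity
    nlinarith
  have e6 : ∫ ω, (3 / (2 * y)) * X ω ^ 2 - (1 / (2 * y ^ 3)) * X ω ^ 4 ∂P =
      3 / (2 * y) * m - 1 / (2 * y ^ 3) * M := by
    rw [integral_sub (i2.const_mul _) (h4.const_mul _), integral_const_mul, integral_const_mul]
  rw [e6] at e1
  refine le_trans ?_ e1
  have hs := s3
  have hs0 := s3pos
  have ys : y = √3 * √m := by rw [hy, Real.sqrt_mul (by norm_num)]
  have sm : √m ^ 2 = m := Real.sq_sqrt h2.le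
  have sm0 : 0 < √m := Real.sqrt_pos.2 h2
  have e9 : √m / √3 = y / 3 := by
    rw [ys]; field_simp; rw [hs]
  have e10 : 3 / (2 * y) * m = y / 2 := by
    have : m = y ^ 2 / 3 := by linarith
    rw [this]; field_simp
  have e11 : 1 / (2 * y ^ 3) * M ≤ y / 6 := by
    have hM3 : M ≤ y ^ 4 / 3 := by
      have : y ^ 4 = (y ^ 2) ^ 2 := by ring
      rw [this, y2]
      linarith
    calc 1 / (2 * y ^ 3) * M ≤ 1 / (2 * y ^ 3) * (y ^ 4 / 3) := by gcongr
      _ = y / 6 := by field_simp; norm_num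
  rw [e9, e10]
  linarith

end

end Pool.Agent.U26.SB
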