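import Pool.Agent.U26.SB.Mix

/-!
# From the limit law to the functions
-/

set_option autoImplicit false
open MeasureTheory Filter Topology ProbabilityTheory
open scoped ENNReal

namespace Pool.Agent.U26.SB

/-- A measure of total mass one as an element of the space of probability measures. -/
noncomputable def pm (μ : Measure ℝ) (h : IsProbabilityMeasure μ) : ProbabilityMeasure ℝ := ⟨μ, h⟩

section

variable {Z : Type*} [MeasurableSpace Z] {Q : Measure Z} [IsProbabilityMeasure Q] {X : ℕ → Z → ℝ}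
  {ν : Measure ℝ} [IsProbabilityMeasure ν]

theorem law_tendsto (hX : ∀ n, AEMeasurable (X n) Q)
    (h : ∀ t : ℝ, Tendsto (fun n => ∫ z, Complex.exp (Complex.I * ((t * X n z : ℝ) : ℂ)) ∂Q) atTop
      (𝓝 (∫ x, Complex.exp (Complex.I * ((t * x : ℝ) : ℂ)) ∂ν))) :
    Tendsto (fun n => pm (Q.map (X n)) (Measure.isProbabilityMeasure_map (hX n))) atTop
      (𝓝 (pm ν inferInstance)) := by
  refine ProbabilityMeasure.tendsto_of_tendsto_charFun fun t => ?_
  have e1 : ∀ n, charFun (Q.map (X n)) t = ∫ z, Complex.exp (Complex.I * ((t * X n z : ℝ) : ℂ)) ∂Q := by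
    intro n
    rw [charFun_apply_real, integral_map (hX n) (by fun_prop)]
    refine integral_congr_ae (Eventually.of_forall fun z => ?_)
    show Complex.exp _ = Complex.exp _
    congr 1
    push_cast
    ring
  have e2 : charFun ν t = ∫ x, Complex.exp (Complex.I * ((t * x : ℝ) : ℂ)) ∂ν := by
    rw [charFun_apply_real]
    refine integral_congr_ae (Eventually.of_forall fun z => ?_)
    show Complex.exp _ = Complex.exp _
    congr 1
    push_cast
    ring
  show Tendsto (fun n => charFun (Q.map (X n)) t) atTop (𝓝 (charFun ν t))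
  simp_rw [e1]
  rw [e2]
  exact h t

theorem open_ge (hX : ∀ n, AEMeasurable (X n) Q)
    (h : ∀ t : ℝ, Tendsto (fun n => ∫ z, Complex.exp (Complex.I * ((t * X n z : ℝ) : ℂ)) ∂Q) atTop
      (𝓝 (∫ x, Complex.exp (Complex.I * ((t * x : ℝ) : ℂ)) ∂ν))) {G : Set ℝ} (hG : IsOpen G)
    {ε : ℝ} (hε : 0 < ε) : ∀ᶠ n in atTop, ν.real G - ε ≤ Q.real {z | X n z ∈ G} := by
  by_cases h0 : ν.real G - ε < 0
  · exact Eventually.of_forall fun n => h0.le.trans measureReal_nonneg
  push Not at h0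
  have h1 := ProbabilityMeasure.le_liminf_measure_open_of_tendsto (law_tendsto hX h) hG
  have h2 : ENNReal.ofReal (ν.real G - ε) < ν G := by
    rw [ENNReal.ofReal_lt_iff_lt_toReal h0 (measure_ne_top _ _)]
    show ν.real G - ε < ν.real G
    linarith
  have h3 := eventually_lt_of_lt_liminf (lt_of_lt_of_le h2 h1)
  filter_upwards [h3] with n hn
  have e1 : (Q.map (X n)) G = Q {z | X n z ∈ G} :=
    Measure.map_apply_of_aemeasurable (hX n) hG.measurableSet
  have hn' : ENNReal.ofReal (ν.real G - ε) < Q {z | X n z ∈ G} := by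
    rw [← e1]
    exact hn
  exact ((ENNReal.ofReal_lt_iff_lt_toReal h0 (measure_ne_top _ _)).1 hn').le

theorem closed_le (hX : ∀ n, AEMeasurable (X n) Q)
    (h : ∀ t : ℝ, Tendsto (fun n => ∫ z, Complex.exp (Complex.I * ((t * X n z : ℝ) : ℂ)) ∂Q) atTop
      (𝓝 (∫ x, Complex.exp (Complex.I * ((t * x : ℝ) : ℂ)) ∂ν))) {F : Set ℝ} (hF : IsClosed F)
    {ε : ℝ} (hε : 0 < ε) : ∀ᶠ n in atTop, Q.real {z | X n z ∈ F} ≤ ν.real F + ε := by
  filter_upwards [open_ge hX h hF.isOpen_compl hε] with n hn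
  have e1 : Q.real {z | X n z ∈ Fᶜ} = 1 - Q.real {z | X n z ∈ F} := by
    have e2 : {z | X n z ∈ Fᶜ} = {z | X n z ∈ F}ᶜ := rfl
    have hm : NullMeasurableSet {z | X n z ∈ F} Q :=
      (hX n).nullMeasurableSet_preimage hF.measurableSet
    rw [e2, probReal_compl_eq_one_sub₀ hm]
  rw [e1, probReal_compl_eq_one_sub hF.measurableSet] at hn
  linarith

theorem fin_sign (hX : ∀ n, AEMeasurable (X n) Q)
    (h : ∀ t : ℝ, Tendsto (fun n => ∫ z, Complex.exp (Complex.I * ((t * X n z : ℝ) : ℂ)) ∂Q) atTop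
      (𝓝 (∫ x, Complex.exp (Complex.I * ((t * x : ℝ) : ℂ)) ∂ν))) {c : ℝ} (hc0 : 0 ≤ c)
    (hc1 : c ≤ 1) {G : Set ℝ} (hG : IsOpen G) (hν : c * ν.real {x | x ≠ 0} ≤ ν.real G)
    {ε : ℝ} (hε : 0 < ε) :
    ∀ᶠ n in atTop, c * Q.real {z | ε ≤ |X n z|} - ε ≤ Q.real {z | X n z ∈ G} := by
  have hF : IsClosed {x : ℝ | ε ≤ |x|} := isClosed_le continuous_const continuous_abs
  filter_upwards [open_ge hX h hG (half_pos hε), closed_le hX h hF (half_pos hε)] with n h1 h2
  have h3 : ν.real {x : ℝ | ε ≤ |x|} ≤ ν.real {x | x ≠ 0} := by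
    refine measureReal_mono fun x hx => ?_
    have hx' : ε ≤ |x| := hx
    intro h0
    rw [h0, abs_zero] at hx'
    linarith
  have h2' : Q.real {z | ε ≤ |X n z|} ≤ ν.real {x : ℝ | ε ≤ |x|} + ε / 2 := h2
  have h4 : c * Q.real {z | ε ≤ |X n z|} ≤ c * (ν.real {x | x ≠ 0} + ε / 2) := by
    gcongr
    linarith
  have h5 : c * (ε / 2) ≤ 1 * (ε / 2) := by gcongr
  linarith

end

end Pool.Agent.U26.SB
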