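import Pool.Agent.U26.SB.Eig

/-!
# From the limit law to the areas
-/

set_option autoImplicit false
open MeasureTheory Filter Topology ProbabilityTheory
open scoped ENNReal

namespace Pool.Agent.U26.SB

open Pool.Agent.N661.BR (MW lin)

section

variable {Z : Type*} [MeasurableSpace Z] {ν : Measure Z} [IsFiniteMeasure ν]

theorem fin_meas (h0 : ν ≠ 0) {X : ℕ → Z → ℝ} (hX : ∀ n, AEMeasurable (X n) ν)
    {ρ : Measure ℝ} [IsProbabilityMeasure ρ]
    (h : ∀ t : ℝ, Tendsto (fun n => (((ν.real Set.univ)⁻¹ : ℝ) : ℂ) *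
      ∫ z, Complex.exp (Complex.I * ((t * X n z : ℝ) : ℂ)) ∂ν) atTop
      (𝓝 (∫ x, Complex.exp (Complex.I * ((t * x : ℝ) : ℂ)) ∂ρ))) {c : ℝ} (hc0 : 0 ≤ c)
    (hc1 : c ≤ 1) {G : Set ℝ} (hG : IsOpen G) (hρ : c * ρ.real {x | x ≠ 0} ≤ ρ.real G)
    {ε : ℝ} (hε : 0 < ε) :
    ∀ᶠ n in atTop, c * ν.real {z | ε ≤ |X n z|} - ε * ν.real Set.univ ≤
      ν.real {z | X n z ∈ G} := by
  have hne : NeZero ν := ⟨h0⟩
  have hu0 : ν Set.univ ≠ 0 := by simpa using h0
  have hpos : 0 < ν.real Set.univ := ENNReal.toReal_pos hu0 (measure_ne_top _ _)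
  set Q : Measure Z := (ν Set.univ)⁻¹ • ν with hQ
  have hQp : IsProbabilityMeasure Q := isProbabilityMeasureSMul
  have hr : ∀ A : Set Z, Q.real A = (ν.real Set.univ)⁻¹ * ν.real A := by
    intro A
    rw [hQ, measureReal_ennreal_smul_apply, ENNReal.toReal_inv]
    rfl
  have hi : ∀ g : Z → ℂ, ∫ z, g z ∂Q = (((ν.real Set.univ)⁻¹ : ℝ) : ℂ) * ∫ z, g z ∂ν := by
    intro g
    rw [hQ, integral_smul_measure, ENNReal.toReal_inv, Complex.real_smul]
    rfl
  have hXQ : ∀ n, AEMeasurable (X n) Q := fun n => (hX n).smul_measure _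
  have h' : ∀ t : ℝ, Tendsto (fun n => ∫ z, Complex.exp (Complex.I * ((t * X n z : ℝ) : ℂ)) ∂Q)
      atTop (𝓝 (∫ x, Complex.exp (Complex.I * ((t * x : ℝ) : ℂ)) ∂ρ)) := by
    intro t
    simp_rw [hi]
    exact h t
  filter_upwards [fin_sign hXQ h' hc0 hc1 hG hρ hε] with n hn
  rw [hr, hr] at hn
  have h1 := mul_le_mul_of_nonneg_left hn hpos.le
  have h2 : ν.real Set.univ * (c * ((ν.real Set.univ)⁻¹ * ν.real {z | ε ≤ |X n z|}) - ε) =
      c * ν.real {z | ε ≤ |X n z|} - ε * ν.real Set.univ := by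
    field_simp
  have h3 : ν.real Set.univ * ((ν.real Set.univ)⁻¹ * ν.real {z | X n z ∈ G}) =
      ν.real {z | X n z ∈ G} := by
    field_simp
  rw [h2, h3] at h1
  exact h1

theorem fin_lin (h0 : ν ≠ 0) {μ : Measure MW} [IsProbabilityMeasure μ] {k : ℕ} (w : Fin k → ℂ)
    (t : Fin k → ℝ) {X : ℕ → Z → Fin k → ℝ} (hX : ∀ n j, AEMeasurable (fun z => X n z j) ν)
    (h : ∀ τ : Fin k → ℝ, Tendsto (fun n => (((ν.real Set.univ)⁻¹ : ℝ) : ℂ) *
      ∫ z, Complex.exp (Complex.I * ((∑ j, τ j * X n z j : ℝ) : ℂ)) ∂ν) atTop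
      (𝓝 (∫ f, Complex.exp (Complex.I * (lin w τ f : ℝ)) ∂μ))) {c : ℝ} (hc0 : 0 ≤ c)
    (hc1 : c ≤ 1) (hμ : c * μ.real {f | lin w t f ≠ 0} ≤ μ.real {f | 0 < lin w t f} ∧
      c * μ.real {f | lin w t f ≠ 0} ≤ μ.real {f | lin w t f < 0})
    {ε : ℝ} (hε : 0 < ε) :
    ∀ᶠ n in atTop,
      c * ν.real {z | ε ≤ |∑ j, t j * X n z j|} - ε * ν.real Set.univ ≤
        ν.real {z | 0 < ∑ j, t j * X n z j} ∧
      c * ν.real {z | ε ≤ |∑ j, t j * X n z j|} - ε * ν.real Set.univ ≤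
        ν.real {z | ∑ j, t j * X n z j < 0} := by
  have hl := lin_meas w t
  have hρp : IsProbabilityMeasure (μ.map (lin w t)) := Measure.isProbabilityMeasure_map hl.aemeasurable
  have hXs : ∀ n, AEMeasurable (fun z => ∑ j, t j * X n z j) ν := fun n =>
    Finset.aemeasurable_fun_sum _ fun j _ => (hX n j).const_mul (t j)
  have hch : ∀ s : ℝ, Tendsto (fun n => (((ν.real Set.univ)⁻¹ : ℝ) : ℂ) *
      ∫ z, Complex.exp (Complex.I * ((s * ∑ j, t j * X n z j : ℝ) : ℂ)) ∂ν) atTop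
      (𝓝 (∫ x, Complex.exp (Complex.I * ((s * x : ℝ) : ℂ)) ∂(μ.map (lin w t)))) := by
    intro s
    have h1 := h fun j => s * t j
    rw [integral_map hl.aemeasurable (by fun_prop)]
    have e1 : ∀ f : MW, lin w (fun j => s * t j) f = s * lin w t f := by
      intro f
      show ∑ j, s * t j * f (w j) = s * ∑ j, t j * f (w j)
      rw [Finset.mul_sum]
      exact Finset.sum_congr rfl fun j _ => by ring
    have e2 : ∀ n z, ∑ j, s * t j * X n z j = s * ∑ j, t j * X n z j := by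
      intro n z
      rw [Finset.mul_sum]
      exact Finset.sum_congr rfl fun j _ => by ring
    simp only [e1, e2] at h1
    exact h1
  have hne : (μ.map (lin w t)).real {x | x ≠ 0} = μ.real {f | lin w t f ≠ 0} :=
    map_measureReal_apply hl (measurableSet_singleton 0).compl
  have hp : (μ.map (lin w t)).real (Set.Ioi 0) = μ.real {f | 0 < lin w t f} :=
    map_measureReal_apply hl measurableSet_Ioi
  have hn : (μ.map (lin w t)).real (Set.Iio 0) = μ.real {f | lin w t f < 0} :=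
    map_measureReal_apply hl measurableSet_Iio
  have a1 := fin_meas h0 hXs hch hc0 hc1 isOpen_Ioi (by rw [hne, hp]; exact hμ.1) hε
  have a2 := fin_meas h0 hXs hch hc0 hc1 isOpen_Iio (by rw [hne, hn]; exact hμ.2) hε
  filter_upwards [a1, a2] with n b1 b2
  exact ⟨b1, b2⟩

end

end Pool.Agent.U26.SB
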