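import Pool.Agent.U26.SB.Six
import Pool.Agent.N661.BH.Fin2

/-!
# Hyperbolic surfaces
-/

set_option autoImplicit false
open MeasureTheory Filter Topology Complex ProbabilityTheory
open scoped ContDiff ENNReal

namespace Pool.Agent.U26.SB

open Pool.Agent.W745.RW (lap dx dy TF W)
open Pool.Agent.N661.BR (MW lin)
open Pool.Agent.N661.BH (HP area loc frames)

/-- the finite dimensional distributions of the functions `u (σ n)`, seen in a random orthonormal
frame at a random point of `Ω`, converge to those of `μ` -/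
def ConvergesAlongH (σ : ℕ → ℕ) (Ω : Set ℂ) (lam : ℕ → ℝ) (u : ℕ → ℂ → ℝ)
    (μ : Measure MW) : Prop :=
  ∀ (k : ℕ) (w : Fin k → ℂ) (t : Fin k → ℝ),
    Tendsto (fun n => (area Ω fun z => frames (fun v => Complex.exp (I *
        ((∑ j, t j * loc (lam (σ n)) (u (σ n)) z (v j) : ℝ) : ℂ))) w) / area Ω fun _ => 1) atTop
      (𝓝 (∫ f, Complex.exp (I * (lin w t f : ℝ)) ∂μ))

/-- the hyperbolic area of a set in the half plane -/
noncomputable def harea (A : Set ℂ) : ℝ := ∫ z in A, 1 / z.im ^ 2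

/-- the hyperbolic area measure on `Ω` -/
noncomputable def hm (Ω : Set ℂ) : Measure ℂ :=
  (volume.restrict Ω).withDensity fun z => ENNReal.ofReal (1 / z.im ^ 2)

theorem hm_dens : Measurable fun z : ℂ => ENNReal.ofReal (1 / z.im ^ 2) :=
  ENNReal.measurable_ofReal.comp (measurable_const.div (Complex.measurable_im.pow_const 2))

theorem hm_int (Ω : Set ℂ) (g : ℂ → ℂ) : ∫ z, g z ∂(hm Ω) = area Ω g := by
  unfold hm area
  rw [integral_withDensity_eq_integral_toReal_smul hm_dens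
    (Eventually.of_forall fun z => ENNReal.ofReal_lt_top)]
  refine integral_congr_ae (Eventually.of_forall fun z => ?_)
  show (ENNReal.ofReal (1 / z.im ^ 2)).toReal • g z = _
  rw [ENNReal.toReal_ofReal (by positivity), Complex.real_smul]

theorem hm_real {Ω : Set ℂ} (hΩ : IsOpen Ω) (A : Set ℂ) :
    (hm Ω).real A = harea {z | z ∈ Ω ∧ z ∈ A} := by
  unfold hm harea
  have e : {z | z ∈ Ω ∧ z ∈ A} = A ∩ Ω := by
    ext z
    exact and_comm
  have hmz : AEStronglyMeasurable (fun z : ℂ => 1 / z.im ^ 2) (volume.restrict (A ∩ Ω)) :=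
    (measurable_const.div (Complex.measurable_im.pow_const 2)).aestronglyMeasurable
  rw [e, measureReal_def, withDensity_apply', Measure.restrict_restrict' hΩ.measurableSet,
    integral_eq_lintegral_of_nonneg_ae (Eventually.of_forall fun z => by positivity) hmz]

theorem hm_fin {Ω : Set ℂ} (hA : IntegrableOn (fun z : ℂ => 1 / z.im ^ 2) Ω) :
    IsFiniteMeasure (hm Ω) := by
  refine ⟨?_⟩
  unfold hm
  rw [withDensity_apply _ MeasurableSet.univ, Measure.restrict_univ]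
  have h := hA.2
  rwa [hasFiniteIntegral_iff_ofReal (Eventually.of_forall fun z => by positivity)] at h

theorem hm_pos {Ω : Set ℂ} (hΩ : IsOpen Ω) (hHP : Ω ⊆ HP) (hne : Ω.Nonempty) : hm Ω ≠ 0 := by
  intro h
  unfold hm at h
  rw [withDensity_eq_zero_iff hm_dens.aemeasurable] at h
  have h1 : ∀ᵐ z ∂(volume.restrict Ω), False := by
    filter_upwards [h, ae_restrict_mem hΩ.measurableSet] with z hz hzΩ
    have h2 : 0 < z.im := hHP hzΩ
    have h3 : ENNReal.ofReal (1 / z.im ^ 2) = 0 := hz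
    rw [ENNReal.ofReal_eq_zero] at h3
    have : 0 < 1 / z.im ^ 2 := by positivity
    linarith
  have h2 : volume.restrict Ω = 0 := by
    rw [← ae_eq_bot]
    exact eventually_false_iff_eq_bot.1 h1
  rw [Measure.restrict_eq_zero] at h2
  exact (hΩ.measure_pos volume hne).ne' h2

theorem hm_univ {Ω : Set ℂ} (hΩ : IsOpen Ω) : (hm Ω).real Set.univ = harea Ω := by
  rw [hm_real hΩ]
  simp

theorem hm_area (Ω : Set ℂ) : area Ω (fun _ => 1) = ((hm Ω).real Set.univ : ℂ) := by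
  rw [← hm_int]
  simp

theorem frames_zero {k : ℕ} (G : (Fin k → ℂ) → ℂ) : frames G (fun _ => 0) = G fun _ => 0 := by
  unfold frames
  simp only [mul_zero, map_zero, intervalIntegral.integral_const, sub_zero]
  rw [Complex.real_smul]
  push_cast
  have : (Real.pi : ℂ) ≠ 0 := by exact_mod_cast Real.pi_ne_zero
  field_simp
  ring

theorem conv_pt {σ : ℕ → ℕ} {Ω : Set ℂ} {lam : ℕ → ℝ} {u : ℕ → ℂ → ℝ} {μ : Measure MW}
    (h : ConvergesAlongH σ Ω lam u μ) (τ : ℝ) :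
    Tendsto (fun n => ((((hm Ω).real Set.univ)⁻¹ : ℝ) : ℂ) *
      ∫ z, Complex.exp (I * ((τ * u (σ n) z : ℝ) : ℂ)) ∂(hm Ω)) atTop
      (𝓝 (∫ f : MW, Complex.exp (I * ((τ * f 0 : ℝ) : ℂ)) ∂μ)) := by
  have h1 := h 1 (fun _ => 0) fun _ => τ
  have e1 : ∀ f : MW, lin (fun _ : Fin 1 => (0 : ℂ)) (fun _ => τ) f = τ * f 0 := by
    intro f
    simp [lin]
  simp only [e1, frames_zero, hm_area] at h1
  refine h1.congr fun n => ?_
  rw [hm_int, ofReal_inv, div_eq_inv_mul]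
  congr 2
  funext z
  simp [loc]

section

variable {σ : ℕ → ℕ} {Ω : Set ℂ} {lam : ℕ → ℝ} {u : ℕ → ℂ → ℝ} {μ : Measure MW}
  [IsProbabilityMeasure μ]

theorem u_meas (hΩ : IsOpen Ω) (hHP : Ω ⊆ HP) (hu : ∀ n, ContDiffOn ℝ ∞ (u n) HP) (n : ℕ) :
    AEMeasurable (u n) (hm Ω) := by
  have h1 : AEMeasurable (u n) (volume.restrict Ω) :=
    ((hu n).continuousOn.mono hHP).aemeasurable hΩ.measurableSet
  exact h1.mono_ac (withDensity_absolutelyContinuous _ _)

theorem hareas (hΩ : IsOpen Ω) (hHP : Ω ⊆ HP) (hne : Ω.Nonempty)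
    (hA : IntegrableOn (fun z : ℂ => 1 / z.im ^ 2) Ω) (hu : ∀ n, ContDiffOn ℝ ∞ (u n) HP)
    (h : ConvergesAlongH σ Ω lam u μ) {c : ℝ} (hc0 : 0 ≤ c) (hc1 : c ≤ 1)
    (hμ : c * μ.real {f : MW | f 0 ≠ 0} ≤ μ.real {f : MW | 0 < f 0} ∧
      c * μ.real {f : MW | f 0 ≠ 0} ≤ μ.real {f : MW | f 0 < 0}) {ε : ℝ} (hε : 0 < ε) :
    ∀ᶠ n in atTop,
      c * harea {z | z ∈ Ω ∧ ε ≤ |u (σ n) z|} - ε * harea Ω ≤
        harea {z | z ∈ Ω ∧ 0 < u (σ n) z} ∧
      c * harea {z | z ∈ Ω ∧ ε ≤ |u (σ n) z|} - ε * harea Ω ≤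
        harea {z | z ∈ Ω ∧ u (σ n) z < 0} := by
  have hf := hm_fin hA
  have e0 : ∀ (τ : Fin 1 → ℝ) (f : MW), lin (fun _ : Fin 1 => (0 : ℂ)) τ f = τ 0 * f 0 := by
    intro τ f
    simp [lin]
  have h1 := fin_lin (ν := hm Ω) (hm_pos hΩ hHP hne) (μ := μ) (k := 1) (fun _ => 0) (fun _ => 1)
    (X := fun n z _ => u (σ n) z) (fun n _ => u_meas hΩ hHP hu _)
    (fun τ => by
      have h2 := conv_pt h (τ 0)
      simpa only [e0, Finset.univ_unique, Finset.sum_singleton, Fin.default_eq_zero] using h2)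
    hc0 hc1 (by simpa only [e0, one_mul] using hμ) hε
  filter_upwards [h1] with n hn
  simp only [Finset.univ_unique, Finset.sum_singleton, one_mul, hm_univ hΩ, hm_real hΩ] at hn
  exact hn

theorem hareas6 (hΩ : IsOpen Ω) (hHP : Ω ⊆ HP) (hne : Ω.Nonempty)
    (hA : IntegrableOn (fun z : ℂ => 1 / z.im ^ 2) Ω) (hu : ∀ n, ContDiffOn ℝ ∞ (u n) HP)
    (h : ConvergesAlongH σ Ω lam u μ) {a : ℝ}
    (hμ : a ≤ μ.real {f : MW | 0 < f 0} ∧ a ≤ μ.real {f : MW | f 0 < 0}) {ε : ℝ} (hε : 0 < ε) :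
    ∀ᶠ n in atTop, (a - ε) * harea Ω ≤ harea {z | z ∈ Ω ∧ 0 < u (σ n) z} ∧
      (a - ε) * harea Ω ≤ harea {z | z ∈ Ω ∧ u (σ n) z < 0} := by
  have hf := hm_fin hA
  have h1 := fin_pt (hm_pos hΩ hHP hne) (X := fun n z => u (σ n) z)
    (fun n => u_meas hΩ hHP hu _) (fun τ => conv_pt h τ) hμ hε
  filter_upwards [h1] with n hn
  simp only [hm_univ hΩ, hm_real hΩ] at hn
  exact hn

end

end Pool.Agent.U26.SB
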