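import Pool.Agent.U26.SB.Pl
import Pool.Agent.U26.SB.Hyp

/-!
# Assembly
-/

set_option autoImplicit false
open MeasureTheory Filter Topology Complex ProbabilityTheory
open scoped ContDiff ENNReal

namespace Pool.Agent.U26.SB

open Pool.Agent.W745.RW (lap dx dy TF W)
open Pool.Agent.N661.BR

theorem cst_le_one : cst ≤ 1 := by
  unfold cst
  have h := s3
  have h0 := s3pos
  have : √(3 : ℝ) ≤ 2 := by
    rw [Real.sqrt_le_left (by norm_num)]
    norm_num
  linarith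

section

variable {S : Type*} [MeasurableSpace S] {P : Measure S} [IsProbabilityMeasure P]
  {κ : Kernel S MW} [IsMarkovKernel κ] {μ : Measure MW}

omit [IsProbabilityMeasure P] in
theorem mix_signs
    (hQ : ∀ v : ℤ →₀ ℝ, Bal v → ∀ l : ℤ,
      ∫⁻ f : MW, ENNReal.ofReal (‖QV v l 1 f 0‖ ^ 2) ∂μ ≤ ENNReal.ofReal (KV v l))
    (hmass : ∫⁻ f : MW, ENNReal.ofReal (f 0 ^ 2) ∂μ ≤ 1) (hκ : P.bind κ = μ)
    (herg : ∀ᵐ s ∂P, IsStationary (κ s) ∧ IsErgodic (κ s)) :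
    ∀ᵐ s ∂P, Signs cst (κ s) := by
  filter_upwards [comp_fin hQ hmass hκ herg, herg] with s h4 hs
  exact signs_of hs.1 hs.2 h4

theorem mix_planck2 (hκ : P.bind κ = μ) {c : ℝ}
    (herg : ∀ᵐ s ∂P, IsStationary (κ s) ∧ IsErgodic (κ s))
    (h : ∀ᵐ s ∂P, Signs c (κ s)) {k : ℕ} (w : Fin k → ℂ) (t : Fin k → ℝ) {a : ℝ} (ha : a < c) :
    Tendsto (fun R : ℝ => μ {f : MW | (∃ y, ∑ j, t j * f (y + w j) ≠ 0) ∧
      (prop R (fun y => ∑ j, t j * f (y + w j)) ≤ a ∨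
        prop R (fun y => -∑ j, t j * f (y + w j)) ≤ a)}) atTop (𝓝 0) := by
  have h1 := mix_planck hκ herg h w t ha
  have h2 := mix_planck hκ herg h w (fun j => -t j) ha
  have h3 := h1.add h2
  rw [add_zero] at h3
  refine tendsto_of_tendsto_of_tendsto_of_le_of_le tendsto_const_nhds h3
    (fun R => zero_le) fun R => ?_
  refine le_trans (measure_mono fun f hf => ?_) (measure_union_le _ _)
  have e : ∀ y, lwave w (fun j => -t j) f y = -∑ j, t j * f (y + w j) := by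
    intro y
    show ∑ j, -t j * f (y + w j) = _
    rw [← Finset.sum_neg_distrib]
    exact Finset.sum_congr rfl fun j _ => by ring
  have e' : (fun y => lwave w (fun j => -t j) f y) = fun y => -∑ j, t j * f (y + w j) :=
    funext e
  obtain ⟨⟨y, hy⟩, hf | hf⟩ := hf
  · exact Or.inl ⟨⟨y, hy⟩, hf⟩
  · refine Or.inr ⟨⟨y, ?_⟩, ?_⟩
    · rw [e]
      exact neg_ne_zero.2 hy
    · rw [← e'] at hf
      exact hf

/-- the case without plane waves -/
theorem mix_six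
    (hQ : ∀ v : ℤ →₀ ℝ, Bal v → ∀ l : ℤ,
      ∫⁻ f : MW, ENNReal.ofReal (‖QV v l 1 f 0‖ ^ 2) ∂μ ≤ ENNReal.ofReal (KV v l))
    (hκ : P.bind κ = μ)
    (herg : ∀ᵐ s ∂P, IsStationary (κ s) ∧ IsErgodic (κ s)) (hvar : ∫ f : MW, f 0 ^ 2 ∂μ = 1)
    (m : S → ℝ) (ν : S → Measure ℝ)
    (hν : ∀ᵐ s ∂P, IsProbabilityMeasure (ν s) ∧ parallel (ν s) = 0 ∧
      ∀ w w' : ℂ, ∫ f : MW, f w * f w' ∂(κ s) = m s * cov (ν s) (w - w')) :
    (∀ᵐ s ∂P, Signs (1 / 6) (κ s)) ∧ ∀ x : ℂ, 1 / 6 ≤ μ.real {f : MW | 0 < f x} ∧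
      1 / 6 ≤ μ.real {f : MW | f x < 0} := by
  have h1 := ergodic_case3 hQ hvar hκ m ν hν herg
  have h2 : ∀ᵐ s ∂P, Signs (1 / 6) (κ s) := by
    filter_upwards [h1, herg] with s hs hs1
    exact signs6_of hs1.1 hs1.2 hs.1 hs.2.2
  refine ⟨h2, fun x => ?_⟩
  have hp : IsProbabilityMeasure μ := by
    rw [← hκ]; infer_instance
  have key : ∀ B : Set MW, MeasurableSet B → (∀ᵐ s ∂P, 1 / 6 ≤ (κ s).real B) →
      1 / 6 ≤ μ.real B := by
    intro B hB hk
    have h3 := mix_le hκ (A := Set.univ) MeasurableSet.univ hB (c := 1 / 6) (by norm_num) (by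
      filter_upwards [hk] with s hs
      simpa using hs)
    simpa using h3
  exact ⟨key _ (measurableSet_lt measurable_const (meas_eval x)) (by
      filter_upwards [h1, h2] with s hs hs1
      exact (six_point hs.1 hs1 x).1),
    key _ (measurableSet_lt (meas_eval x) measurable_const) (by
      filter_upwards [h1, h2] with s hs hs1
      exact (six_point hs.1 hs1 x).2)⟩

end

theorem areas6 {σ : ℕ → ℕ} {χ : ℝ → ℝ} {Ω : Set ℂ} (ho : IsOpen Ω) (hb : Bornology.IsBounded Ω)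
    (hne : Ω.Nonempty) (hχ : IsCutoff χ) {lam : ℕ → ℝ} {u : ℕ → ℂ → ℝ}
    (hu : ∀ n, ContDiffOn ℝ ∞ (u n) Ω) {μ : Measure MW} [IsProbabilityMeasure μ]
    (h : ConvergesAlong σ χ Ω lam u μ) {a : ℝ}
    (hμ : a ≤ μ.real {f : MW | 0 < f 0} ∧ a ≤ μ.real {f : MW | f 0 < 0}) {ε : ℝ} (hε : 0 < ε) :
    ∀ᶠ n in atTop,
      (a - ε) * volume.real Ω ≤ volume.real {z | z ∈ Ω ∧ 0 < u (σ n) z} ∧
      (a - ε) * volume.real Ω ≤ volume.real {z | z ∈ Ω ∧ u (σ n) z < 0} := by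
  have hfin : volume Ω ≠ ⊤ := hb.measure_lt_top.ne
  have hf : IsFiniteMeasure (volume.restrict Ω) :=
    ⟨by rw [Measure.restrict_apply_univ]; exact hfin.lt_top⟩
  have h0 : (volume.restrict Ω) ≠ 0 := by
    rw [Ne, Measure.restrict_eq_zero]
    exact (ho.measure_pos volume hne).ne'
  have hun : (volume.restrict Ω).real Set.univ = volume.real Ω := by
    rw [measureReal_restrict_apply_univ]
  have hr : ∀ A : Set ℂ, (volume.restrict Ω).real A = volume.real {z | z ∈ Ω ∧ z ∈ A} := by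
    intro A
    rw [measureReal_restrict_apply' ho.measurableSet, Set.inter_comm]
    rfl
  have e0 : ∀ (τ : ℝ) (f : MW), lin (fun _ : Fin 1 => (0 : ℂ)) (fun _ => τ) f = τ * f 0 := by
    intro τ f
    simp [lin]
  have h1 := fin_pt (Z := ℂ) (ν := volume.restrict Ω) h0 (μ := μ)
    (X := fun n z => u (σ n) z)
    (fun n => (hu _).continuousOn.aemeasurable ho.measurableSet)
    (fun τ => by
      have h2 := h 1 (fun _ => 0) fun _ => τ
      simp only [e0, resc_zero hχ, Finset.univ_unique, Finset.sum_singleton] at h2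
      rw [hun]
      simpa only [one_div] using h2) hμ hε
  filter_upwards [h1] with n hn
  rw [hun, hr, hr] at hn
  exact hn

end Pool.Agent.U26.SB
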