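import Pool.Agent.U26.SB.Planck

/-!
# Mixtures of ergodic waves
-/

set_option autoImplicit false
open MeasureTheory Filter Topology ProbabilityTheory
open scoped ContDiff ENNReal

namespace Pool.Agent.U26.SB

open Pool.Agent.W745.RW (lap dx dy TF W)
open Pool.Agent.N661.BR

section mix

variable {S : Type*} [MeasurableSpace S] {P : Measure S} [IsProbabilityMeasure P]
  {κ : Kernel S MW} [IsMarkovKernel κ] {μ : Measure MW}

omit [IsProbabilityMeasure P] in
/-- the components have finite fourth moments -/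
theorem comp_fin
    (hQ : ∀ v : ℤ →₀ ℝ, Bal v → ∀ l : ℤ,
      ∫⁻ f : MW, ENNReal.ofReal (‖QV v l 1 f 0‖ ^ 2) ∂μ ≤ ENNReal.ofReal (KV v l))
    (hmass : ∫⁻ f : MW, ENNReal.ofReal (f 0 ^ 2) ∂μ ≤ 1) (hκ : P.bind κ = μ)
    (herg : ∀ᵐ s ∂P, IsStationary (κ s) ∧ IsErgodic (κ s)) :
    ∀ᵐ s ∂P, Integrable (fun f : MW => f 0 ^ 4) (κ s) := by
  have hm : Measurable (fun f : MW => ENNReal.ofReal (f 0 ^ 2)) :=
    ENNReal.measurable_ofReal.comp ((meas_eval 0).pow_const 2)
  rw [dis hκ hm] at hmass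
  have h2 : ∀ᵐ s ∂P, ∫⁻ f : MW, ENNReal.ofReal (f 0 ^ 2) ∂(κ s) < ⊤ :=
    ae_lt_top' hm.lintegral_kernel.aemeasurable (ne_top_of_le_ne_top ENNReal.one_ne_top hmass)
  have kA := fun p => mix_AV allParts hκ hQ p
  filter_upwards [herg, h2, kA 0, kA 1] with s hs1 hs2 hs5 hs6
  have hs3 : Integrable (fun f : MW => f 0 ^ 2) (κ s) := by
    refine ⟨((meas_eval 0).pow_const 2).aestronglyMeasurable, ?_⟩
    rw [hasFiniteIntegral_iff_ofReal (Eventually.of_forall fun f => by positivity)]
    exact hs2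
  obtain ⟨m, ν, hν, -, hcov⟩ := Pool.Agent.N878.BR.BOCH (κ s) inferInstance hs1.1 hs3
  have h3 := allParts.sec (κ s) inferInstance (sq_int hs1.1 hs3) m ν hν hcov
  refine allParts.fin (κ s) inferInstance hs1.1 hs1.2 m h3 ?_
  rintro p (rfl | rfl)
  · exact hs5
  · exact hs6

/-- the alternative for one component -/
def Signs (c : ℝ) (ρ : Measure MW) : Prop :=
  ∀ (k : ℕ) (w : Fin k → ℂ) (t : Fin k → ℝ), (∀ᵐ f ∂ρ, lin w t f = 0) ∨
    (c ≤ ρ.real {f | 0 < lin w t f} ∧ c ≤ ρ.real {f | lin w t f < 0})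

theorem signs_of {ρ : Measure MW} [IsProbabilityMeasure ρ] (hs : IsStationary ρ)
    (he : IsErgodic ρ) (h4 : Integrable (fun f : MW => f 0 ^ 4) ρ) : Signs cst ρ := by
  intro k w t
  by_cases h : ∀ᵐ f ∂ρ, lin w t f = 0
  · exact Or.inl h
  · refine Or.inr ⟨erg_sign hs he h4 w t h, ?_⟩
    have h1 := erg_sign hs he h4 w (fun j => -t j) (by simpa only [lin_neg, neg_eq_zero] using h)
    simpa only [lin_neg, Left.neg_pos_iff] using h1

theorem mix_le (hκ : P.bind κ = μ) {A B : Set MW} (hA : MeasurableSet A) (hB : MeasurableSet B)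
    {c : ℝ} (hc : 0 ≤ c) (h : ∀ᵐ s ∂P, c * (κ s).real A ≤ (κ s).real B) :
    c * μ.real A ≤ μ.real B := by
  have hp : IsProbabilityMeasure μ := by
    rw [← hκ]; infer_instance
  have h1 : ENNReal.ofReal c * μ A ≤ μ B := by
    rw [← hκ, Measure.bind_apply hA κ.measurable.aemeasurable,
      Measure.bind_apply hB κ.measurable.aemeasurable,
      ← lintegral_const_mul _ (κ.measurable_coe hA)]
    refine lintegral_mono_ae ?_
    filter_upwards [h] with s hs
    have h2 := ENNReal.ofReal_le_ofReal hs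
    rwa [ENNReal.ofReal_mul hc, ofReal_measureReal, ofReal_measureReal] at h2
  have h2 := ENNReal.toReal_mono (measure_ne_top μ B) h1
  rwa [ENNReal.toReal_mul, ENNReal.toReal_ofReal hc] at h2

theorem mix_sign (hκ : P.bind κ = μ) {c : ℝ} (hc : 0 ≤ c) (h : ∀ᵐ s ∂P, Signs c (κ s)) {k : ℕ}
    (w : Fin k → ℂ) (t : Fin k → ℝ) :
    c * μ.real {f | lin w t f ≠ 0} ≤ μ.real {f | 0 < lin w t f} ∧
    c * μ.real {f | lin w t f ≠ 0} ≤ μ.real {f | lin w t f < 0} := by
  have hX := lin_meas w t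
  have m0 : MeasurableSet {f | lin w t f ≠ 0} :=
    (measurableSet_eq_fun hX measurable_const).compl
  have key : ∀ B : Set MW, MeasurableSet B → (∀ᵐ s ∂P, (∀ᵐ f ∂(κ s), lin w t f = 0) ∨
      c ≤ (κ s).real B) → c * μ.real {f | lin w t f ≠ 0} ≤ μ.real B := by
    intro B hB hk
    refine mix_le hκ m0 hB hc ?_
    filter_upwards [hk] with s hs
    rcases hs with hs | hs
    · have : (κ s).real {f | lin w t f ≠ 0} = 0 := by
        rw [measureReal_def, ae_iff.1 hs, ENNReal.toReal_zero]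
      rw [this, mul_zero]
      exact measureReal_nonneg
    · refine le_trans ?_ hs
      exact mul_le_of_le_one_right hc measureReal_le_one
  exact ⟨key _ (measurableSet_lt measurable_const hX) (h.mono fun s hs => (hs k w t).imp id And.left),
    key _ (measurableSet_lt hX measurable_const) (h.mono fun s hs => (hs k w t).imp id And.right)⟩

/-! ### large discs -/

theorem lwave_lin {k : ℕ} (w : Fin k → ℂ) (t : Fin k → ℝ) (f : MW) (y : ℂ) :
    lwave w t f y = lin w t (shift y f) := by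
  show ∑ j, t j * f (y + w j) = ∑ j, t j * f (w j + y)
  exact Finset.sum_congr rfl fun j _ => by rw [add_comm]

theorem lwave_null {ρ : Measure MW} (hs : IsStationary ρ) {k : ℕ} (w : Fin k → ℂ) (t : Fin k → ℝ)
    (h : ∀ᵐ f ∂ρ, lin w t f = 0) : ∀ᵐ f ∂ρ, ∀ y, lwave w t f y = 0 := by
  have h1 : ∀ n : ℕ, ∀ᵐ f ∂ρ, lwave w t f (TopologicalSpace.denseSeq ℂ n) = 0 := by
    intro n
    have hmp : MeasurePreserving (shift (TopologicalSpace.denseSeq ℂ n)) ρ ρ :=
      ⟨meas_shift _, hs _⟩
    have h2 := hmp.quasiMeasurePreserving.ae h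
    filter_upwards [h2] with f hf
    rw [lwave_lin, hf]
  filter_upwards [ae_all_iff.2 h1] with f hf
  have hc : Continuous (fun y => lwave w t f y) := (lwave w t f).2.1.continuous
  have h3 : (fun y => lwave w t f y) = fun _ => 0 :=
    (TopologicalSpace.denseRange_denseSeq ℂ).equalizer hc continuous_const (funext hf)
  exact fun y => congrFun h3 y

theorem meas_nz {k : ℕ} (w : Fin k → ℂ) (t : Fin k → ℝ) :
    MeasurableSet {f : MW | ∃ y, lwave w t f y ≠ 0} := by
  have e : {f : MW | ∃ y, lwave w t f y ≠ 0} =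
      ⋃ n : ℕ, {f : MW | lwave w t f (TopologicalSpace.denseSeq ℂ n) ≠ 0} := by
    ext f
    simp only [Set.mem_ofPred_eq, Set.mem_iUnion]
    constructor
    · intro ⟨y, hy⟩
      by_contra hc
      push Not at hc
      have hc' : Continuous (fun y => lwave w t f y) := (lwave w t f).2.1.continuous
      have h3 : (fun y => lwave w t f y) = fun _ => 0 :=
        (TopologicalSpace.denseRange_denseSeq ℂ).equalizer hc' continuous_const (funext hc)
      exact hy (congrFun h3 y)
    · rintro ⟨n, hn⟩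
      exact ⟨_, hn⟩
  rw [e]
  refine MeasurableSet.iUnion fun n => ?_
  exact (measurableSet_eq_fun ((meas_eval _).comp (lwave_meas w t)) measurable_const).compl

theorem mix_planck (hκ : P.bind κ = μ) {c : ℝ} (herg : ∀ᵐ s ∂P, IsStationary (κ s) ∧ IsErgodic (κ s))
    (h : ∀ᵐ s ∂P, Signs c (κ s)) {k : ℕ} (w : Fin k → ℂ) (t : Fin k → ℝ) {a : ℝ} (ha : a < c) :
    Tendsto (fun R : ℝ => μ {f | (∃ y, lwave w t f y ≠ 0) ∧ prop R (lwave w t f) ≤ a}) atTop
      (𝓝 0) := by
  have hmB : ∀ R : ℝ, MeasurableSet {f : MW | (∃ y, lwave w t f y ≠ 0) ∧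
      prop R (lwave w t f) ≤ a} := fun R =>
    (meas_nz w t).inter (measurableSet_le ((prop_meas R).comp (lwave_meas w t)) measurable_const)
  have e1 : ∀ R : ℝ, μ {f | (∃ y, lwave w t f y ≠ 0) ∧ prop R (lwave w t f) ≤ a} =
      ∫⁻ s, κ s {f | (∃ y, lwave w t f y ≠ 0) ∧ prop R (lwave w t f) ≤ a} ∂P := fun R => by
    rw [← hκ, Measure.bind_apply (hmB R) κ.measurable.aemeasurable]
  simp_rw [e1]
  have h0 : (0 : ℝ≥0∞) = ∫⁻ _ : S, 0 ∂P := by simp
  rw [h0]
  refine tendsto_lintegral_filter_of_dominated_convergence (fun _ => 1)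
    (Eventually.of_forall fun R => κ.measurable_coe (hmB R))
    (Eventually.of_forall fun R => Eventually.of_forall fun s => prob_le_one) (by simp) ?_
  filter_upwards [herg, h] with s hs1 hs2
  rcases hs2 k w t with h3 | h3
  · have h4 := lwave_null hs1.1 w t h3
    have h5 : ∀ R : ℝ, κ s {f | (∃ y, lwave w t f y ≠ 0) ∧ prop R (lwave w t f) ≤ a} = 0 := by
      intro R
      refine measure_mono_null (fun f hf => hf.1) (t := {f : MW | ∃ y, lwave w t f y ≠ 0}) ?_
      have h6 := ae_iff.1 h4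
      push Not at h6
      exact h6
    simp_rw [h5]
    exact tendsto_const_nhds
  · have hmw := lwave_meas w t
    have hp : IsProbabilityMeasure ((κ s).map (lwave w t)) :=
      Measure.isProbabilityMeasure_map hmw.aemeasurable
    have h6 : a < ((κ s).map (lwave w t)).real {f : MW | 0 < f 0} := by
      rw [map_measureReal_apply hmw (measurableSet_lt measurable_const (meas_eval 0))]
      refine lt_of_lt_of_le ha (h3.1.trans (le_of_eq ?_))
      congr 1
      ext f
      show 0 < lin w t f ↔ 0 < lwave w t f 0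
      rw [lwave_zero]
    have h7 := planck (lwave_stat w t hs1.1) (lwave_erg w t hs1.2) h6
    refine tendsto_of_tendsto_of_tendsto_of_le_of_le tendsto_const_nhds h7
      (fun R => zero_le) fun R => ?_
    show κ s _ ≤ ((κ s).map (lwave w t)) {f : MW | prop R f ≤ a}
    rw [Measure.map_apply hmw (measurableSet_le (prop_meas R) measurable_const)]
    exact measure_mono fun f hf => hf.2

end mix

end Pool.Agent.U26.SB
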