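import Pool.Agent.U26.SB.Eig2
import Pool.Agent.N661.BR.Fin5

/-!
# Planar domains
-/

set_option autoImplicit false
open MeasureTheory Filter Topology Complex ProbabilityTheory
open scoped ContDiff ENNReal

namespace Pool.Agent.U26.SB

open Pool.Agent.W745.RW (lap dx dy TF W)
open Pool.Agent.N661.BR

/-- the finite dimensional distributions of the local measures converge along `σ` to those
of `μ` -/
def ConvergesAlong (σ : ℕ → ℕ) (χ : ℝ → ℝ) (Ω : Set ℂ) (lam : ℕ → ℝ) (u : ℕ → ℂ → ℝ)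
    (μ : Measure MW) : Prop :=
  ∀ (k : ℕ) (w : Fin k → ℂ) (t : Fin k → ℝ),
    Tendsto (fun n => (1 / volume.real Ω : ℝ) * ∫ z in Ω,
      Complex.exp (I * ((∑ j, t j * resc χ Ω (lam (σ n)) (u (σ n)) z (w j) : ℝ) : ℂ))) atTop
      (𝓝 (∫ f, Complex.exp (I * (lin w t f : ℝ)) ∂μ))

theorem areas {σ : ℕ → ℕ} {χ : ℝ → ℝ} {Ω : Set ℂ} (ho : IsOpen Ω) (hb : Bornology.IsBounded Ω)
    (hne : Ω.Nonempty) (hχ : IsCutoff χ) {lam : ℕ → ℝ} (hl : ∀ n, 0 < lam n) {u : ℕ → ℂ → ℝ}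
    (hu : ∀ n, ContDiffOn ℝ ∞ (u n) Ω) {μ : Measure MW} [IsProbabilityMeasure μ]
    (h : ConvergesAlong σ χ Ω lam u μ) {k : ℕ} (w : Fin k → ℂ) (t : Fin k → ℝ)
    {c : ℝ} (hc0 : 0 ≤ c) (hc1 : c ≤ 1)
    (hμ : c * μ.real {f | lin w t f ≠ 0} ≤ μ.real {f | 0 < lin w t f} ∧
      c * μ.real {f | lin w t f ≠ 0} ≤ μ.real {f | lin w t f < 0}) {ε : ℝ} (hε : 0 < ε) :
    ∀ᶠ n in atTop,
      c * volume.real {z | z ∈ Ω ∧ ε ≤ |∑ j, t j * resc χ Ω (lam (σ n)) (u (σ n)) z (w j)|} -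
          ε * volume.real Ω ≤
        volume.real {z | z ∈ Ω ∧ 0 < ∑ j, t j * resc χ Ω (lam (σ n)) (u (σ n)) z (w j)} ∧
      c * volume.real {z | z ∈ Ω ∧ ε ≤ |∑ j, t j * resc χ Ω (lam (σ n)) (u (σ n)) z (w j)|} -
          ε * volume.real Ω ≤
        volume.real {z | z ∈ Ω ∧ ∑ j, t j * resc χ Ω (lam (σ n)) (u (σ n)) z (w j) < 0} := by
  have hfin : volume Ω ≠ ⊤ := hb.measure_lt_top.ne
  have hf : IsFiniteMeasure (volume.restrict Ω) :=
    ⟨by rw [Measure.restrict_apply_univ]; exact hfin.lt_top⟩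
  have h0 : (volume.restrict Ω) ≠ 0 := by
    rw [Ne, Measure.restrict_eq_zero]
    exact (ho.measure_pos volume hne).ne'
  have hun : (volume.restrict Ω).real Set.univ = volume.real Ω := by
    rw [measureReal_restrict_apply_univ]
  have hr : ∀ A : Set ℂ, (volume.restrict Ω).real A = volume.real {z | z ∈ Ω ∧ z ∈ A} := by
    intro A
    rw [measureReal_restrict_apply' ho.measurableSet, Set.inter_comm]
    rfl
  have h1 := fin_lin (Z := ℂ) (ν := volume.restrict Ω) h0 (μ := μ) w t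
    (X := fun n z j => resc χ Ω (lam (σ n)) (u (σ n)) z (w j))
    (fun n j => (Pool.Agent.N163.BR.resc_meas ho hb hχ (hl _) (hu _).continuousOn _).aemeasurable)
    (fun τ => by
      have h2 := h k w τ
      rw [hun]
      simpa only [one_div] using h2) hc0 hc1 hμ hε
  filter_upwards [h1] with n hn
  rw [hun, hr, hr, hr] at hn
  exact hn

theorem resc_zero {χ : ℝ → ℝ} (hχ : IsCutoff χ) (Ω : Set ℂ) (lam : ℝ) (u : ℂ → ℝ) (z : ℂ) :
    resc χ Ω lam u z 0 = u z := by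
  obtain ⟨δ, hδ, h1⟩ := hχ.one
  have h2 : χ 0 = 1 := h1 0 le_rfl hδ.le
  simp [resc, h2]

end Pool.Agent.U26.SB
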