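import Pool.Agent.U26.SB.Comp

/-!
# Proportion of large discs on which an ergodic wave is positive
-/

set_option autoImplicit false
open MeasureTheory Filter Topology ProbabilityTheory
open scoped ContDiff ENNReal

namespace Pool.Agent.U26.SB

open Pool.Agent.W745.RW (lap dx dy TF)
open Pool.Agent.N661.BR
open Pool.Agent.N141.BRERG4 (ev ev_meas)
open Pool.Agent.R989.Erg (sh inv inv_le V Fld)
open Pool.Agent.R989.Asm (ind ind_meas ind_int V_ind)

/-- the proportion of the disc of radius `R` about `0` on which `g` is positive -/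
noncomputable def prop (R : ℝ) (g : ℂ → ℝ) : ℝ :=
  volume.real {z : ℂ | ‖z‖ ≤ 1 ∧ 0 < g (R * z)} / Real.pi

theorem joint_ev : Measurable fun p : MW × ℂ => ev p.1 p.2 :=
  Pool.Agent.N878.BR.meas_unc.comp measurable_swap

/-- the indicator of a positive value at `0` -/
noncomputable def xpos : (ℂ → ℝ) → ℝ := {g : ℂ → ℝ | 0 < g 0}.indicator fun _ => 1

theorem xpos_meas : Measurable xpos :=
  measurable_const.indicator (measurableSet_lt measurable_const (measurable_pi_apply 0))

theorem V_prop (R : ℝ) (f : MW) : V ev (ind 1) R xpos f = Real.pi * prop R f := by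
  rw [V_ind]
  have hc : Continuous fun z : ℂ => f (R * z) := f.2.1.continuous.comp (by fun_prop)
  have hm : MeasurableSet {z : ℂ | 0 < f (R * z)} := (isOpen_lt continuous_const hc).measurableSet
  have e1 : ∀ z : ℂ, xpos (sh (R * z) (ev f)) = {z : ℂ | 0 < f (R * z)}.indicator (fun _ => 1) z := by
    intro z
    unfold xpos sh ev
    simp only [Set.indicator, Set.mem_ofPred_eq, zero_add]
  simp_rw [e1]
  rw [integral_indicator_const _ hm, smul_eq_mul, mul_one, measureReal_restrict_apply hm]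
  have e2 : {z : ℂ | 0 < f (R * z)} ∩ Metric.closedBall (0 : ℂ) ((1 : ℕ) : ℝ) =
      {z : ℂ | ‖z‖ ≤ 1 ∧ 0 < f (R * z)} := by
    ext z
    simp only [Set.mem_inter_iff, Set.mem_ofPred_eq, Metric.mem_closedBall, dist_zero_right,
      Nat.cast_one]
    exact and_comm
  rw [e2]
  unfold prop
  field_simp

theorem int_ind : ∫ z, ind 1 z = Real.pi := by
  unfold ind
  rw [integral_indicator_const _ measurableSet_closedBall, smul_eq_mul, mul_one, Measure.real,
    Complex.volume_closedBall]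
  simp

variable {ρ : Measure MW} [IsProbabilityMeasure ρ]

theorem prop_meas (R : ℝ) : Measurable fun f : MW => prop R f := by
  have hs : Measurable fun p : MW × ℂ => ({z : ℂ | ‖z‖ ≤ 1 ∧ 0 < p.1 (R * z)} : Set ℂ).indicator
      (fun _ => (1 : ℝ≥0∞)) p.2 := by
    have h2 : Measurable fun p : MW × ℂ => (p.1, (R : ℂ) * p.2) := by fun_prop
    have h3 : Measurable fun p : MW × ℂ => ev p.1 ((R : ℂ) * p.2) := joint_ev.comp h2
    have h4 : MeasurableSet {p : MW × ℂ | ‖p.2‖ ≤ 1} :=
      measurableSet_le measurable_snd.norm measurable_const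
    have h5 : MeasurableSet {p : MW × ℂ | 0 < ev p.1 ((R : ℂ) * p.2)} :=
      measurableSet_lt measurable_const h3
    have h1 : MeasurableSet {p : MW × ℂ | ‖p.2‖ ≤ 1 ∧ 0 < p.1 (R * p.2)} := h4.inter h5
    exact measurable_const.indicator h1
  have h2 : Measurable fun f : MW => ∫⁻ z : ℂ, ({z : ℂ | ‖z‖ ≤ 1 ∧ 0 < f (R * z)} : Set ℂ).indicator
      (fun _ => (1 : ℝ≥0∞)) z := hs.lintegral_prod_right'
  have h3 : ∀ f : MW, ∫⁻ z : ℂ, ({z : ℂ | ‖z‖ ≤ 1 ∧ 0 < f (R * z)} : Set ℂ).indicator
      (fun _ => (1 : ℝ≥0∞)) z = volume {z : ℂ | ‖z‖ ≤ 1 ∧ 0 < f (R * z)} := by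
    intro f
    have hc : Continuous fun z : ℂ => f (R * z) := f.2.1.continuous.comp (by fun_prop)
    have hm : MeasurableSet {z : ℂ | ‖z‖ ≤ 1 ∧ 0 < f (R * z)} :=
      (isClosed_le continuous_norm continuous_const).measurableSet.inter
        (isOpen_lt continuous_const hc).measurableSet
    rw [lintegral_indicator_const hm, one_mul]
  simp_rw [h3] at h2
  exact h2.ennreal_toReal.div_const _

/-- **Large discs**: an ergodic wave is positive on the expected proportion of large discs -/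
theorem planck (hs : IsStationary ρ) (he : IsErgodic ρ) {c : ℝ}
    (hc : c < ρ.real {f : MW | 0 < f 0}) :
    Tendsto (fun R : ℝ => ρ {f : MW | prop R f ≤ c}) atTop (𝓝 0) := by
  set p := ρ.real {f : MW | 0 < f 0} with hp
  have hμp : IsProbabilityMeasure (ρ.map ev) := Measure.isProbabilityMeasure_map ev_meas.aemeasurable
  have hfld : Fld ρ (ρ.map ev) ev := ⟨joint_ev, rfl⟩
  have hμ : ∀ a, MeasurePreserving (sh a) (ρ.map ev) (ρ.map ev) := by
    refine Pool.Agent.R989.Erg.mps joint_ev fun a => ?_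
    have h1 : (fun f : MW => sh a (ev f)) = ev ∘ shift a := rfl
    rw [h1, ← Measure.map_map ev_meas (meas_shift a), hs a]
  have hxi : Integrable xpos (ρ.map ev) :=
    (integrable_const (1 : ℝ)).indicator (measurableSet_lt measurable_const (measurable_pi_apply 0))
  have hxi' : Integrable (fun f : MW => xpos (ev f)) ρ :=
    (integrable_map_measure xpos_meas.aestronglyMeasurable ev_meas.aemeasurable).1 hxi
  have hce : ∀ᵐ f ∂ρ, ((ρ.map ev)[xpos | inv (ρ.map ev)]) (ev f) = p := by
    have h1 := Pool.Agent.R989.Erg.ce_transfer (P := ρ) ev_meas xpos hxi xpos_meas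
    have h2 := Pool.Agent.N141.BRERG4.ce he hxi'
    have h3 : ∫ f, xpos (ev f) ∂ρ = p := by
      have h4 : ∀ f : MW, xpos (ev f) = {f : MW | 0 < f 0}.indicator (fun _ => 1) f := fun f => rfl
      simp_rw [h4]
      rw [integral_indicator_const _ (measurableSet_lt measurable_const (meas_eval 0)), smul_eq_mul,
        mul_one]
    filter_upwards [h1.symm.trans h2] with f hf
    rw [hf, h3]
  have hL1 := Pool.Agent.R989.Erg.L1 (S := MW) (P := ρ) hμ (ind 1) (ind_meas 1) (ind_int 1) xpos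
    xpos_meas hxi
  have hpi := Real.pi_pos
  set δ : ℝ := Real.pi * (p - c) with hδ
  have hδ0 : 0 < δ := mul_pos hpi (sub_pos.2 hc)
  rw [ENNReal.tendsto_atTop_zero]
  intro ε hε
  by_cases hεt : ε = ⊤
  · exact ⟨0, fun _ _ => hεt ▸ le_top⟩
  have hδe : ENNReal.ofReal δ ≠ 0 := (ENNReal.ofReal_pos.2 hδ0).ne'
  have hη : 0 < ENNReal.ofReal δ * ε := pos_iff_ne_zero.2 (mul_ne_zero hδe hε.ne')
  obtain ⟨N, hN⟩ := eventually_atTop.1 (hL1 _ hη)
  refine ⟨N, fun R hR => ?_⟩
  have h1 := hN R hR ev hfld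
  set g : MW → ℝ := fun s => V ev (ind 1) R xpos s -
    (∫ z, ind 1 z) * ((ρ.map ev)[xpos | inv (ρ.map ev)]) (ev s) with hg
  have hgm : AEStronglyMeasurable g ρ := by
    refine ((Pool.Agent.R989.Erg.V_meas joint_ev (ind 1) (ind_meas 1) R xpos
      xpos_meas).aestronglyMeasurable).sub (aestronglyMeasurable_const.mul ?_)
    have h2 : Measurable ((ρ.map ev)[xpos | inv (ρ.map ev)]) :=
      stronglyMeasurable_condExp.measurable.mono (inv_le _) le_rfl
    exact (h2.comp ev_meas).aestronglyMeasurable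
  have h2 : ρ {f : MW | prop R f ≤ c} ≤ ρ {f | ENNReal.ofReal δ ≤ ‖g f‖ₑ} := by
    refine measure_mono_ae ?_
    filter_upwards [hce] with f hf hA
    have hA' : prop R f ≤ c := hA
    have e1 : g f = Real.pi * prop R f - Real.pi * p := by
      rw [hg]
      simp only
      rw [V_prop, int_ind, hf]
    show ENNReal.ofReal δ ≤ ‖g f‖ₑ
    rw [e1, Real.enorm_eq_ofReal_abs]
    refine ENNReal.ofReal_le_ofReal ?_
    rw [abs_sub_comm]
    refine le_trans ?_ (le_abs_self _)
    rw [hδ, ← mul_sub]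
    exact mul_le_mul_of_nonneg_left (by linarith) hpi.le
  have h3 := mul_meas_ge_le_lintegral₀ (μ := ρ) hgm.enorm (ENNReal.ofReal δ)
  rw [← eLpNorm_one_eq_lintegral_enorm] at h3
  have h4 : ENNReal.ofReal δ * ρ {f : MW | prop R f ≤ c} ≤ ENNReal.ofReal δ * ε :=
    (mul_le_mul_right h2 _).trans (h3.trans h1)
  exact (ENNReal.mul_le_mul_iff_right hδe ENNReal.ofReal_ne_top).1 h4

end Pool.Agent.U26.SB
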