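import Pool.Agent.U26.SB.Eig2

/-!
# The constant 1/6
-/

set_option autoImplicit false
open MeasureTheory Filter Topology ProbabilityTheory
open scoped ContDiff ENNReal

namespace Pool.Agent.U26.SB

open Pool.Agent.W745.RW (lap dx dy TF W)
open Pool.Agent.N661.BR

section

variable {k : ℕ} {μ : Measure MW} [IsProbabilityMeasure μ]

omit [IsProbabilityMeasure μ] in
theorem i4_at (hs : IsStationary μ) (h4 : Integrable (fun f : MW => f 0 ^ 4) μ) (w : ℂ) :
    Integrable (fun f : MW => f w ^ 4) μ := by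
  have h1 : MeasurePreserving (shift w) μ μ := ⟨meas_shift w, hs w⟩
  have h2 := h1.integrable_comp_of_integrable h4
  refine h2.congr (Eventually.of_forall fun f => ?_)
  show (f (0 + w)) ^ 4 = f w ^ 4
  rw [zero_add]

theorem amgm3 {x y z : ℝ} : |x * y * z| ≤ |x ^ 3| + |y ^ 3| + |z ^ 3| := by
  rw [abs_mul, abs_mul, abs_pow, abs_pow, abs_pow]
  have hx := abs_nonneg x
  have hy := abs_nonneg y
  have hz := abs_nonneg z
  nlinarith [mul_nonneg (add_nonneg (add_nonneg hx hy) hz) (add_nonneg (add_nonneg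
    (sq_nonneg (|x| - |y|)) (sq_nonneg (|y| - |z|))) (sq_nonneg (|z| - |x|))), pow_nonneg hx 3,
    pow_nonneg hy 3, pow_nonneg hz 3, mul_nonneg (mul_nonneg hx hy) hz]

theorem int3 (hs : IsStationary μ) (h4 : Integrable (fun f : MW => f 0 ^ 4) μ) (a b c : ℂ) :
    Integrable (fun f : MW => f a * f b * f c) μ := by
  have h : ∀ a : ℂ, Integrable (fun f : MW => f a ^ 3) μ := fun a =>
    pow_int (meas_eval a) (i4_at hs h4 a) (by norm_num)
  refine Integrable.mono' (((h a).norm.add (h b).norm).add (h c).norm)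
    (((meas_eval a).mul (meas_eval b)).mul (meas_eval c)).aestronglyMeasurable
    (Eventually.of_forall fun f => ?_)
  exact amgm3

theorem lin_third (hs : IsStationary μ) (h4 : Integrable (fun f : MW => f 0 ^ 4) μ)
    (h3 : ∀ a b c : ℂ, ∫ f : MW, f a * f b * f c ∂μ = 0) (w : Fin k → ℂ) (t : Fin k → ℝ) :
    ∫ f, lin w t f ^ 3 ∂μ = 0 := by
  have e : ∀ f : MW, lin w t f ^ 3 =
      ∑ i, ∑ j, ∑ l, (t i * t j * t l) * (f (w i) * f (w j) * f (w l)) := by
    intro f
    unfold lin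
    rw [pow_three, Finset.sum_mul]
    refine Finset.sum_congr rfl fun i _ => ?_
    rw [Finset.sum_mul, Finset.mul_sum]
    refine Finset.sum_congr rfl fun j _ => ?_
    rw [Finset.mul_sum, Finset.mul_sum]
    exact Finset.sum_congr rfl fun l _ => by ring
  simp_rw [e]
  have hi : ∀ i j l, Integrable (fun f : MW => (t i * t j * t l) * (f (w i) * f (w j) * f (w l)))
      μ := fun i j l => (int3 hs h4 _ _ _).const_mul _
  rw [integral_finsetSum _ fun i _ => integrable_finsetSum _ fun j _ =>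
    integrable_finsetSum _ fun l _ => hi i j l]
  refine Finset.sum_eq_zero fun i _ => ?_
  rw [integral_finsetSum _ fun j _ => integrable_finsetSum _ fun l _ => hi i j l]
  refine Finset.sum_eq_zero fun j _ => ?_
  rw [integral_finsetSum _ fun l _ => hi i j l]
  refine Finset.sum_eq_zero fun l _ => ?_
  rw [integral_const_mul, h3, mul_zero]

theorem erg_sixth (hs : IsStationary μ) (he : IsErgodic μ)
    (h4 : Integrable (fun f : MW => f 0 ^ 4) μ)
    (h3 : ∀ a b c : ℂ, ∫ f : MW, f a * f b * f c ∂μ = 0) (w : Fin k → ℂ) (t : Fin k → ℝ)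
    (h0 : ¬ ∀ᵐ f ∂μ, lin w t f = 0) : 1 / 6 ≤ μ.real {f | 0 < lin w t f} := by
  have hX := lin_meas w t
  have i4 := lin_i4 hs h4 w t
  have i2 : Integrable (fun f : MW => f 0 ^ 2) μ := pow_int (meas_eval 0) h4 (by norm_num)
  have j2 : Integrable (fun f => lin w t f ^ 2) μ := pow_int hX i4 (by norm_num)
  refine sixth_core hX i4 (lin_mean hs i2 w t) ?_ (lin_third hs h4 h3 w t) (lin_four hs he h4 w t)
  refine lt_of_le_of_ne (integral_nonneg fun f => sq_nonneg _) fun h => h0 ?_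
  have h1 := (integral_eq_zero_iff_of_nonneg (fun f => sq_nonneg _) j2).1 h.symm
  filter_upwards [h1] with f hf
  exact pow_eq_zero_iff (two_ne_zero) |>.1 hf

theorem signs6_of {ρ : Measure MW} [IsProbabilityMeasure ρ] (hs : IsStationary ρ)
    (he : IsErgodic ρ) (hG : Good ρ) (h3 : ∀ a b c : ℂ, ∫ f : MW, f a * f b * f c ∂ρ = 0) :
    Signs (1 / 6) ρ := by
  intro k w t
  have h4 := hG.fin 0
  by_cases h : ∀ᵐ f ∂ρ, lin w t f = 0
  · exact Or.inl h
  · refine Or.inr ⟨erg_sixth hs he h4 h3 w t h, ?_⟩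
    have h1 := erg_sixth hs he h4 h3 w (fun j => -t j) (by simpa only [lin_neg, neg_eq_zero] using h)
    simpa only [lin_neg, Left.neg_pos_iff] using h1

theorem J0_zero : J0 0 = 1 := by
  unfold J0
  simp only [zero_mul, Real.cos_zero, intervalIntegral.integral_const, sub_zero, smul_eq_mul,
    mul_one]
  have := Real.pi_pos
  field_simp

/-- at one point both signs have probability at least 1/6 -/
theorem six_point {ρ : Measure MW} [IsProbabilityMeasure ρ] (hG : Good ρ)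
    (h6 : Signs (1 / 6) ρ) (x : ℂ) : 1 / 6 ≤ ρ.real {f : MW | 0 < f x} ∧
      1 / 6 ≤ ρ.real {f : MW | f x < 0} := by
  have e : ∀ f : MW, lin (fun _ : Fin 1 => x) (fun _ => 1) f = f x := by
    intro f
    simp [lin]
  have h := h6 1 (fun _ => x) fun _ => 1
  simp only [e] at h
  rcases h with h | h
  · exfalso
    have h1 := hG.two x x
    have h2 : ∫ f : MW, f x * f x ∂ρ = 0 := by
      rw [integral_congr_ae (g := fun _ => (0 : ℝ)) (by
        filter_upwards [h] with f hf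
        rw [hf, zero_mul])]
      simp
    rw [h2, sub_self, norm_zero, J0_zero] at h1
    norm_num at h1
  · exact h

end

section fin

variable {Z : Type*} [MeasurableSpace Z] {ν : Measure Z} [IsFiniteMeasure ν]

theorem fin_open (h0 : ν ≠ 0) {X : ℕ → Z → ℝ} (hX : ∀ n, AEMeasurable (X n) ν)
    {ρ : Measure ℝ} [IsProbabilityMeasure ρ]
    (h : ∀ t : ℝ, Tendsto (fun n => (((ν.real Set.univ)⁻¹ : ℝ) : ℂ) *
      ∫ z, Complex.exp (Complex.I * ((t * X n z : ℝ) : ℂ)) ∂ν) atTop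
      (𝓝 (∫ x, Complex.exp (Complex.I * ((t * x : ℝ) : ℂ)) ∂ρ))) {a : ℝ}
    {G : Set ℝ} (hG : IsOpen G) (hρ : a ≤ ρ.real G)
    {ε : ℝ} (hε : 0 < ε) :
    ∀ᶠ n in atTop, (a - ε) * ν.real Set.univ ≤ ν.real {z | X n z ∈ G} := by
  have hne : NeZero ν := ⟨h0⟩
  have hu0 : ν Set.univ ≠ 0 := by simpa using h0
  have hpos : 0 < ν.real Set.univ := ENNReal.toReal_pos hu0 (measure_ne_top _ _)
  set Q : Measure Z := (ν Set.univ)⁻¹ • ν with hQ
  have hQp : IsProbabilityMeasure Q := isProbabilityMeasureSMul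
  have hr : ∀ A : Set Z, Q.real A = (ν.real Set.univ)⁻¹ * ν.real A := by
    intro A
    rw [hQ, measureReal_ennreal_smul_apply, ENNReal.toReal_inv]
    rfl
  have hi : ∀ g : Z → ℂ, ∫ z, g z ∂Q = (((ν.real Set.univ)⁻¹ : ℝ) : ℂ) * ∫ z, g z ∂ν := by
    intro g
    rw [hQ, integral_smul_measure, ENNReal.toReal_inv, Complex.real_smul]
    rfl
  have hXQ : ∀ n, AEMeasurable (X n) Q := fun n => (hX n).smul_measure _
  have h' : ∀ t : ℝ, Tendsto (fun n => ∫ z, Complex.exp (Complex.I * ((t * X n z : ℝ) : ℂ)) ∂Q)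
      atTop (𝓝 (∫ x, Complex.exp (Complex.I * ((t * x : ℝ) : ℂ)) ∂ρ)) := by
    intro t
    simp_rw [hi]
    exact h t
  filter_upwards [open_ge hXQ h' hG hε] with n hn
  rw [hr] at hn
  have h1 := mul_le_mul_of_nonneg_left (sub_le_sub_right hρ ε |>.trans hn) hpos.le
  have h3 : ν.real Set.univ * ((ν.real Set.univ)⁻¹ * ν.real {z | X n z ∈ G}) =
      ν.real {z | X n z ∈ G} := by
    field_simp
  rw [h3] at h1
  rw [mul_comm]
  exact h1

theorem fin_pt (h0 : ν ≠ 0) {μ : Measure MW} [IsProbabilityMeasure μ] {X : ℕ → Z → ℝ}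
    (hX : ∀ n, AEMeasurable (X n) ν)
    (h : ∀ τ : ℝ, Tendsto (fun n => (((ν.real Set.univ)⁻¹ : ℝ) : ℂ) *
      ∫ z, Complex.exp (Complex.I * ((τ * X n z : ℝ) : ℂ)) ∂ν) atTop
      (𝓝 (∫ f : MW, Complex.exp (Complex.I * ((τ * f 0 : ℝ) : ℂ)) ∂μ))) {a : ℝ}
    (hμ : a ≤ μ.real {f : MW | 0 < f 0} ∧ a ≤ μ.real {f : MW | f 0 < 0}) {ε : ℝ} (hε : 0 < ε) :
    ∀ᶠ n in atTop, (a - ε) * ν.real Set.univ ≤ ν.real {z | 0 < X n z} ∧
      (a - ε) * ν.real Set.univ ≤ ν.real {z | X n z < 0} := by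
  have hl : Measurable fun f : MW => f 0 := meas_eval 0
  have hρp : IsProbabilityMeasure (μ.map fun f : MW => f 0) :=
    Measure.isProbabilityMeasure_map hl.aemeasurable
  have hch : ∀ s : ℝ, Tendsto (fun n => (((ν.real Set.univ)⁻¹ : ℝ) : ℂ) *
      ∫ z, Complex.exp (Complex.I * ((s * X n z : ℝ) : ℂ)) ∂ν) atTop
      (𝓝 (∫ x, Complex.exp (Complex.I * ((s * x : ℝ) : ℂ)) ∂(μ.map fun f : MW => f 0))) := by
    intro s
    rw [integral_map hl.aemeasurable (by fun_prop)]
    exact h s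
  have hp : (μ.map fun f : MW => f 0).real (Set.Ioi 0) = μ.real {f : MW | 0 < f 0} :=
    map_measureReal_apply hl measurableSet_Ioi
  have hn : (μ.map fun f : MW => f 0).real (Set.Iio 0) = μ.real {f : MW | f 0 < 0} :=
    map_measureReal_apply hl measurableSet_Iio
  have a1 := fin_open (a := a) h0 hX hch isOpen_Ioi (by rw [hp]; exact hμ.1) hε
  have a2 := fin_open (a := a) h0 hX hch isOpen_Iio (by rw [hn]; exact hμ.2) hε
  filter_upwards [a1, a2] with n b1 b2
  exact ⟨b1, b2⟩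

end fin

end Pool.Agent.U26.SB
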